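import Mathlib

/-!
Honeycomb lattice in brick-wall coordinates: hexagons, trajectories which run along a hexagon exactly
once, and the replacement of this run by the complementary arc of the hexagon.
-/

set_option autoImplicit false

namespace Pool.Agent.Q291.HB

open scoped ENNReal

/-- Adjacency in the honeycomb lattice (brick-wall coordinates). -/
def Nbr (p q : ℤ × ℤ) : Prop :=
  (p.2 = q.2 ∧ (p.1 - q.1 = 1 ∨ q.1 - p.1 = 1)) ∨
    (p.1 = q.1 ∧ ((q.2 = p.2 + 1 ∧ Even (p.1 + p.2)) ∨ (p.2 = q.2 + 1 ∧ Even (q.1 + q.2))))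

/-- The self-avoiding trajectories from `a` to `b` in `D`, as lists of vertices. -/
def Traj (D : Set (ℤ × ℤ)) (a b : ℤ × ℤ) : Set (List (ℤ × ℤ)) :=
  {l | l.head? = some a ∧ l.getLast? = some b ∧ l.Nodup ∧ l.IsChain Nbr ∧ ∀ p ∈ l, p ∈ D}

/-- The corners of the hexagon with the lower left corner `c`, in cyclic order. -/
def cor (c : ℤ × ℤ) : Fin 6 → ℤ × ℤ :=
  ![c, (c.1 + 1, c.2), (c.1 + 2, c.2), (c.1 + 2, c.2 + 1), (c.1 + 1, c.2 + 1), (c.1, c.2 + 1)]

/-- The hexagon as a set of vertices. -/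
def Hex (c : ℤ × ℤ) : Set (ℤ × ℤ) := Set.range (cor c)

/-- `m` steps along the hexagon, from the corner `s`, in the direction `d`. -/
def run (s : Fin 6) (d : Bool) (m : ℕ) : List (Fin 6) :=
  (List.range (m + 1)).map fun i => if d then s + (Fin.ofNat 6 i) else s - (Fin.ofNat 6 i)

theorem mem_Hex {c p : ℤ × ℤ} :
    p ∈ Hex c ↔ (c.1 ≤ p.1 ∧ p.1 ≤ c.1 + 2 ∧ c.2 ≤ p.2 ∧ p.2 ≤ c.2 + 1) := by
  unfold Hex
  constructor
  · rintro ⟨i, rfl⟩
    fin_cases i <;> simp [cor]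
  · rintro ⟨h1, h2, h3, h4⟩
    obtain ⟨a, b⟩ := c
    obtain ⟨x, y⟩ := p
    simp only at h1 h2 h3 h4
    have hx : x = a ∨ x = a + 1 ∨ x = a + 2 := by omega
    have hy : y = b ∨ y = b + 1 := by omega
    rcases hx with rfl | rfl | rfl <;> rcases hy with rfl | rfl
    · exact ⟨0, rfl⟩
    · exact ⟨5, rfl⟩
    · exact ⟨1, rfl⟩
    · exact ⟨4, rfl⟩
    · exact ⟨2, rfl⟩
    · exact ⟨3, rfl⟩

theorem cor_inj (c : ℤ × ℤ) : Function.Injective (cor c) := by
  intro i j h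
  fin_cases i <;> fin_cases j <;> simp [cor, Prod.ext_iff] at h ⊢ <;> omega

theorem nbr_cor {c : ℤ × ℤ} (hc : Even (c.1 + c.2)) (i : Fin 6) : Nbr (cor c i) (cor c (i + 1)) := by
  obtain ⟨a, b⟩ := c
  simp only at hc
  have h2 : Even (a + 2 + b) := by
    rw [show a + 2 + b = (a + b) + 2 by ring]
    exact hc.add (by decide)
  fin_cases i
  · left; exact ⟨rfl, Or.inr (by simp [cor])⟩
  · left; refine ⟨rfl, Or.inr ?_⟩; simp [cor]
  · right; exact ⟨rfl, Or.inl ⟨rfl, h2⟩⟩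
  · left; refine ⟨rfl, Or.inl ?_⟩; simp [cor]
  · left; refine ⟨rfl, Or.inl ?_⟩; simp [cor]
  · right; exact ⟨rfl, Or.inr ⟨rfl, hc⟩⟩

theorem nbr_symm {p q : ℤ × ℤ} (h : Nbr p q) : Nbr q p := by
  unfold Nbr at *
  rcases h with ⟨h1, h2⟩ | ⟨h1, h2 | h2⟩
  · exact Or.inl ⟨h1.symm, h2.symm⟩
  · exact Or.inr ⟨h1.symm, Or.inr h2⟩
  · exact Or.inr ⟨h1.symm, Or.inl h2⟩

theorem nbr_cor' {c : ℤ × ℤ} (hc : Even (c.1 + c.2)) {i j : Fin 6} (h : j = i + 1 ∨ i = j + 1) :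
    Nbr (cor c i) (cor c j) := by
  rcases h with rfl | rfl
  · exact nbr_cor hc i
  · exact nbr_symm (nbr_cor hc j)

theorem run_ne (s : Fin 6) (d : Bool) (m : ℕ) : run s d m ≠ [] := by
  simp [run, List.range_succ]

theorem run_length (s : Fin 6) (d : Bool) (m : ℕ) : (run s d m).length = m + 1 := by
  simp [run]

theorem run_head (s : Fin 6) (d : Bool) (m : ℕ) : (run s d m).head? = some s := by
  simp [run, List.range_succ_eq_map]

theorem run_last : ∀ (s : Fin 6) (d : Bool) (m : Fin 4),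
    (run s d (m + 1)).getLast? = (run s (!d) (5 - m)).getLast? := by decide

theorem run_nodup : ∀ (s : Fin 6) (d : Bool) (m : Fin 6), (run s d m).Nodup := by decide

theorem run_chain : ∀ (s : Fin 6) (d : Bool) (m : Fin 6),
    (run s d m).IsChain (fun i j => j = i + 1 ∨ i = j + 1) := by decide

theorem run_cover : ∀ (s : Fin 6) (d : Bool) (m : Fin 4) (i : Fin 6),
    i ∈ run s d (m + 1) ∨ i ∈ run s (!d) (5 - m) := by decide

theorem run_inj : ∀ (s : Fin 6) (d : Bool) (m : Fin 4) (s' : Fin 6) (d' : Bool) (m' : Fin 4),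
    run s (!d) (5 - m) = run s' (!d') (5 - m') → run s d (m + 1) = run s' d' (m' + 1) := by
  decide

end Pool.Agent.Q291.HB
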