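import Pool.Agent.Q291.HB.Arc

/-!
The replacement of a single run along a hexagon by the complementary arc: it is injective, gives a
trajectory in the enlarged domain and does not change the runs along disjoint hexagons.
-/

set_option autoImplicit false

namespace Pool.Agent.Q291.HB

open scoped ENNReal

/-- The list `l` visits the hexagon `c` in one run of one to four steps. -/
def Single (c : ℤ × ℤ) (l : List (ℤ × ℤ)) : Prop :=
  ∃ l₁ r l₂ : List (ℤ × ℤ), l = l₁ ++ (r ++ l₂) ∧ 2 ≤ r.length ∧ r.length ≤ 5 ∧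
    (∀ p ∈ r, p ∈ Hex c) ∧ (∀ p ∈ l₁, p ∉ Hex c) ∧ (∀ p ∈ l₂, p ∉ Hex c)

structure Dat where
  l₁ : List (ℤ × ℤ)
  s : Fin 6
  d : Bool
  m : Fin 4
  l₂ : List (ℤ × ℤ)

def Dat.old (c : ℤ × ℤ) (t : Dat) : List (ℤ × ℤ) :=
  t.l₁ ++ ((run t.s t.d (t.m + 1)).map (cor c) ++ t.l₂)

def Dat.new (c : ℤ × ℤ) (t : Dat) : List (ℤ × ℤ) :=
  t.l₁ ++ ((run t.s (!t.d) (5 - t.m)).map (cor c) ++ t.l₂)

def Dat.Ok (c : ℤ × ℤ) (t : Dat) : Prop := (∀ p ∈ t.l₁, p ∉ Hex c) ∧ (∀ p ∈ t.l₂, p ∉ Hex c)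

theorem nbr_imp {c : ℤ × ℤ} (hc : Even (c.1 + c.2)) {i j : Fin 6} (h : Nbr (cor c i) (cor c j)) :
    j = i + 1 ∨ i = j + 1 := by
  obtain ⟨a, b⟩ := c
  unfold Nbr at h
  simp only at hc
  have hc' : ¬ Even (a + 1 + b) := by
    rw [show a + 1 + b = (a + b) + 1 by ring, Int.even_add_one]
    exact not_not.2 hc
  fin_cases i <;> fin_cases j <;> simp [cor] at h ⊢ <;> try omega
  · rcases h with h | ⟨h, _⟩
    · exact hc' h
    · omega
  · rcases h with ⟨h, _⟩ | h
    · omega
    · exact hc' h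

theorem map_of_mem {c : ℤ × ℤ} {r : List (ℤ × ℤ)} (h : ∀ p ∈ r, p ∈ Hex c) :
    ∃ ρ : List (Fin 6), r = ρ.map (cor c) := by
  induction r with
  | nil => exact ⟨[], rfl⟩
  | cons p r ih =>
    obtain ⟨i, hi⟩ := h p (by simp)
    obtain ⟨ρ, hρ⟩ := ih fun q hq => h q (by simp [hq])
    exact ⟨i :: ρ, by simp [hi, hρ]⟩

/-- a step up or down -/
def stp (b : Bool) (i : Fin 6) : Fin 6 := if b then i + 1 else i - 1

theorem exists_stp {i j : Fin 6} (h : j = i + 1 ∨ i = j + 1) : ∃ b, j = stp b i := by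
  rcases h with h | h
  · exact ⟨true, h⟩
  · exact ⟨false, by simp [stp, h]⟩

theorem run2 : ∀ (i : Fin 6) (a : Bool), ([i, stp a i] : List (Fin 6)).Nodup →
    ∃ (s : Fin 6) (d : Bool) (m : Fin 4), [i, stp a i] = run s d (m + 1) := by decide

theorem run3 : ∀ (i : Fin 6) (a b : Bool), ([i, stp a i, stp b (stp a i)] : List (Fin 6)).Nodup →
    ∃ (s : Fin 6) (d : Bool) (m : Fin 4), [i, stp a i, stp b (stp a i)] = run s d (m + 1) := by decide

theorem run4 : ∀ (i : Fin 6) (a b c : Bool),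
    ([i, stp a i, stp b (stp a i), stp c (stp b (stp a i))] : List (Fin 6)).Nodup →
    ∃ (s : Fin 6) (d : Bool) (m : Fin 4),
      [i, stp a i, stp b (stp a i), stp c (stp b (stp a i))] = run s d (m + 1) := by decide

theorem run5 : ∀ (i : Fin 6) (a b c e : Bool),
    ([i, stp a i, stp b (stp a i), stp c (stp b (stp a i)), stp e (stp c (stp b (stp a i)))] :
      List (Fin 6)).Nodup →
    ∃ (s : Fin 6) (d : Bool) (m : Fin 4),
      [i, stp a i, stp b (stp a i), stp c (stp b (stp a i)), stp e (stp c (stp b (stp a i)))] =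
        run s d (m + 1) := by decide

/-- a nodup chain of two to five elements is a run -/
theorem is_run (ρ : List (Fin 6)) (h2 : 2 ≤ ρ.length) (h5 : ρ.length ≤ 5) (hn : ρ.Nodup)
    (hc : ρ.IsChain (fun i j => j = i + 1 ∨ i = j + 1)) :
    ∃ (s : Fin 6) (d : Bool) (m : Fin 4), ρ = run s d (m + 1) := by
  match ρ, h2, h5, hn, hc with
  | [i0, i1], _, _, hn, hc =>
    simp at hc
    obtain ⟨a, rfl⟩ := exists_stp hc
    exact run2 i0 a hn
  | [i0, i1, i2], _, _, hn, hc =>
    simp at hc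
    obtain ⟨a, rfl⟩ := exists_stp hc.1
    obtain ⟨b, rfl⟩ := exists_stp hc.2
    exact run3 i0 a b hn
  | [i0, i1, i2, i3], _, _, hn, hc =>
    simp at hc
    obtain ⟨a, rfl⟩ := exists_stp hc.1
    obtain ⟨b, rfl⟩ := exists_stp hc.2.1
    obtain ⟨c, rfl⟩ := exists_stp hc.2.2
    exact run4 i0 a b c hn
  | [i0, i1, i2, i3, i4], _, _, hn, hc =>
    simp at hc
    obtain ⟨a, rfl⟩ := exists_stp hc.1
    obtain ⟨b, rfl⟩ := exists_stp hc.2.1
    obtain ⟨c, rfl⟩ := exists_stp hc.2.2.1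
    obtain ⟨e, rfl⟩ := exists_stp hc.2.2.2
    exact run5 i0 a b c e hn
  | [], h, _, _, _ => simp at h
  | [_], h, _, _, _ => simp at h
  | _ :: _ :: _ :: _ :: _ :: _ :: _, _, h, _, _ =>
    simp only [List.length_cons] at h
    omega

theorem exists_dat {c : ℤ × ℤ} (hc : Even (c.1 + c.2)) {l : List (ℤ × ℤ)} (hn : l.Nodup)
    (hch : l.IsChain Nbr) (h : Single c l) : ∃ t : Dat, t.Ok c ∧ t.old c = l := by
  obtain ⟨l₁, r, l₂, rfl, h2, h5, hr, h1, h2'⟩ := h
  obtain ⟨ρ, rfl⟩ := map_of_mem hr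
  have hrn : ρ.Nodup := by
    have := (List.nodup_append'.1 (List.nodup_append'.1 hn).2.1).1
    exact List.Nodup.of_map _ this
  have hrc : (ρ.map (cor c)).IsChain Nbr := by
    have := (List.isChain_append.1 (List.isChain_append.1 hch).2.1).1
    exact this
  have hrc' : ρ.IsChain (fun i j => j = i + 1 ∨ i = j + 1) := by
    rw [List.isChain_map] at hrc
    exact hrc.imp fun i j h => nbr_imp hc h
  simp only [List.length_map] at h2 h5
  obtain ⟨s, d, m, rfl⟩ := is_run ρ h2 h5 hrn hrc'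
  exact ⟨⟨l₁, s, d, m, l₂⟩, ⟨h1, h2'⟩, rfl⟩

theorem split_unique {α : Type*} (H : α → Prop) {l₁ l₁' m m' l₂ l₂' : List α}
    (h1 : ∀ p ∈ l₁, ¬ H p) (h1' : ∀ p ∈ l₁', ¬ H p) (hm : ∀ p ∈ m, H p) (hm' : ∀ p ∈ m', H p)
    (h2 : ∀ p ∈ l₂, ¬ H p) (h2' : ∀ p ∈ l₂', ¬ H p) (hne : m ≠ []) (hne' : m' ≠ [])
    (h : l₁ ++ (m ++ l₂) = l₁' ++ (m' ++ l₂')) : l₁ = l₁' ∧ m = m' ∧ l₂ = l₂' := by
  induction l₁ generalizing l₁' with
  | nil =>
    cases l₁' with
    | nil =>
      simp only [List.nil_append] at h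
      refine ⟨rfl, ?_⟩
      clear hne hne'
      induction m generalizing m' with
      | nil =>
        cases m' with
        | nil => exact ⟨rfl, by simpa using h⟩
        | cons q m' =>
          simp only [List.nil_append] at h
          exact absurd (hm' q (by simp)) (h2 q (by rw [h]; simp))
      | cons p m ih =>
        cases m' with
        | nil =>
          simp only [List.nil_append] at h
          exact absurd (hm p (by simp)) (h2' p (by rw [← h]; simp))
        | cons q m' =>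
          simp only [List.cons_append, List.cons.injEq] at h
          obtain ⟨rfl, h⟩ := h
          obtain ⟨e1, e2⟩ := ih (fun x hx => hm x (by simp [hx])) (fun x hx => hm' x (by simp [hx])) h
          exact ⟨by rw [e1], e2⟩
    | cons q l₁' =>
      cases m with
      | nil => exact absurd rfl hne
      | cons p m =>
        simp only [List.nil_append, List.cons_append, List.cons.injEq] at h
        obtain ⟨rfl, -⟩ := h
        exact absurd (hm p (by simp)) (h1' p (by simp))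
  | cons p l₁ ih =>
    cases l₁' with
    | nil =>
      cases m' with
      | nil => exact absurd rfl hne'
      | cons q m' =>
        simp only [List.nil_append, List.cons_append, List.cons.injEq] at h
        obtain ⟨rfl, -⟩ := h
        exact absurd (hm' p (by simp)) (h1 p (by simp))
    | cons q l₁' =>
      simp only [List.cons_append, List.cons.injEq] at h
      obtain ⟨rfl, h⟩ := h
      obtain ⟨e1, e2⟩ := ih (fun x hx => h1 x (by simp [hx])) (fun x hx => h1' x (by simp [hx])) h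
      exact ⟨by rw [e1], e2⟩

theorem mem_map_cor {c p : ℤ × ℤ} {ρ : List (Fin 6)} (h : p ∈ ρ.map (cor c)) : p ∈ Hex c := by
  obtain ⟨i, -, rfl⟩ := List.mem_map.1 h
  exact ⟨i, rfl⟩

theorem new_inj {c : ℤ × ℤ} {t t' : Dat} (h : t.Ok c) (h' : t'.Ok c) (he : t.new c = t'.new c) :
    t.old c = t'.old c := by
  obtain ⟨e1, e2, e3⟩ := split_unique (fun p => p ∈ Hex c) h.1 h'.1 (fun p => mem_map_cor)
    (fun p => mem_map_cor) h.2 h'.2 (by simpa using run_ne _ _ _) (by simpa using run_ne _ _ _) he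
  have e2' := List.map_injective_iff.2 (cor_inj c) e2
  have := run_inj _ _ _ _ _ _ e2'
  unfold Dat.old
  rw [e1, e3, this]

theorem new_length (c : ℤ × ℤ) (t : Dat) : (t.new c).length ≤ (t.old c).length + 4 := by
  unfold Dat.new Dat.old
  simp only [List.length_append, List.length_map, run_length]
  have := t.m.2
  omega

end Pool.Agent.Q291.HB
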