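import Pool.Agent.Q291.HB.Gen
import Pool.Agent.Y981.WG.D

/-!
The number of contacts of the critical trajectory with the boundary of an arbitrary domain.
-/

set_option autoImplicit false

namespace Pool.Agent.Q291.HB

open scoped ENNReal

/-- the critical fugacity -/
noncomputable def xc : ℝ≥0∞ := ENNReal.ofReal (1 / Real.sqrt (2 + Real.sqrt 2))

/-- the critical partition function -/
noncomputable def Z (D : Set (ℤ × ℤ)) (a b : ℤ × ℤ) : ℝ≥0∞ :=
  ∑' l : Traj D a b, xc ^ (l.1.length - 1)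

/-- the probability that there are at least `m` contacts -/
noncomputable def PN (D : Set (ℤ × ℤ)) (a b : ℤ × ℤ) (m : ℝ) : ℝ≥0∞ :=
  (∑' l : {l : List (ℤ × ℤ) | l ∈ Traj D a b ∧ m ≤ (N D l : ℝ)}, xc ^ (l.1.length - 1)) / Z D a b

theorem xc_le : xc ≤ 1 := by
  unfold xc
  rw [ENNReal.ofReal_le_one]
  have h2 : (1 : ℝ) ≤ Real.sqrt (2 + Real.sqrt 2) := by
    rw [show (1 : ℝ) = Real.sqrt 1 by simp]
    apply Real.sqrt_le_sqrt
    have := Real.sqrt_nonneg 2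
    linarith
  rw [div_le_one (by linarith)]
  exact h2

theorem xc_pos : 0 < xc := by
  unfold xc
  rw [ENNReal.ofReal_pos]
  positivity

/-- the gain per contact -/
noncomputable def gain : ℝ := Real.log (1 + xc.toReal ^ 4)

theorem xc_ne_top : xc ≠ ⊤ := ENNReal.ofReal_ne_top

theorem gain_pos : 0 < gain := by
  unfold gain
  apply Real.log_pos
  have : 0 < xc.toReal := ENNReal.toReal_pos xc_pos.ne' xc_ne_top
  have h4 : 0 < xc.toReal ^ 4 := pow_pos this 4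
  linarith

theorem q_eq : 1 + xc ^ 4 = ENNReal.ofReal (Real.exp gain) := by
  unfold gain
  have h0 : 0 ≤ xc.toReal ^ 4 := by positivity
  rw [Real.exp_log (by linarith), ENNReal.ofReal_add zero_le_one h0, ENNReal.ofReal_one,
    ENNReal.ofReal_pow ENNReal.toReal_nonneg, ENNReal.ofReal_toReal xc_ne_top]

/-- the tail, in an arbitrary domain -/
theorem tail_gen (D : Set (ℤ × ℤ)) (a b : ℤ × ℤ) (m : ℝ) :
    ENNReal.ofReal (Real.exp (gain * ((m - 2) / 3))) *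
      (∑' l : {l : List (ℤ × ℤ) | l ∈ Traj D a b ∧ m ≤ (N D l : ℝ)}, xc ^ (l.1.length - 1)) ≤
      3 * Z (Plus D) a b := by
  rw [← ENNReal.tsum_mul_left]
  refine le_trans ?_ (main xc xc_le D a b)
  calc ∑' l : {l : List (ℤ × ℤ) | l ∈ Traj D a b ∧ m ≤ (N D l : ℝ)},
        ENNReal.ofReal (Real.exp (gain * ((m - 2) / 3))) * xc ^ (l.1.length - 1)
      ≤ ∑' l : {l : List (ℤ × ℤ) | l ∈ Traj D a b ∧ m ≤ (N D l : ℝ)},
        xc ^ (l.1.length - 1) * (1 + xc ^ 4) ^ (N D l.1 / 3) := by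
        refine ENNReal.tsum_le_tsum fun l => ?_
        rw [mul_comm]
        refine mul_le_mul' le_rfl ?_
        rw [q_eq, ← ENNReal.ofReal_pow (Real.exp_pos _).le, ← Real.exp_nat_mul]
        apply ENNReal.ofReal_le_ofReal
        apply Real.exp_le_exp.2
        rw [mul_comm]
        apply mul_le_mul_of_nonneg_right _ gain_pos.le
        have h1 : m ≤ (N D l.1 : ℝ) := l.2.2
        have h2 : N D l.1 ≤ 3 * (N D l.1 / 3) + 2 := by omega
        have h3 : (N D l.1 : ℝ) ≤ 3 * ((N D l.1 / 3 : ℕ) : ℝ) + 2 := by exact_mod_cast h2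
        linarith
    _ ≤ _ := ENNReal.tsum_mono_subtype
        (fun l : List (ℤ × ℤ) => xc ^ (l.length - 1) * (1 + xc ^ 4) ^ (N D l / 3))
        (fun l hl => hl.1)

theorem plus_box {M : ℝ} {L : ℕ} (hL : 2 ≤ L) {D : Set (ℤ × ℤ)}
    (hD : ∀ p ∈ D, |(p.1 : ℝ)| ≤ M * L ∧ |(p.2 : ℝ)| ≤ M * L) :
    ∀ p ∈ Plus D, |(p.1 : ℝ)| ≤ (M + 2) * L ∧ |(p.2 : ℝ)| ≤ (M + 2) * L := by
  have hL' : (2 : ℝ) ≤ L := by exact_mod_cast hL
  rintro p (hp | ⟨c, -, hpc, r, hrc, hrD⟩)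
  · have := hD p hp
    constructor <;> nlinarith [this.1, this.2]
  · have h := hD r hrD
    rw [mem_Hex] at hpc hrc
    have e1 : |((p.1 - r.1 : ℤ) : ℝ)| ≤ 2 := by
      rw [← Int.cast_abs]
      have : |p.1 - r.1| ≤ 2 := by rw [abs_le]; omega
      exact_mod_cast this
    have e2 : |((p.2 - r.2 : ℤ) : ℝ)| ≤ 2 := by
      rw [← Int.cast_abs]
      have : |p.2 - r.2| ≤ 2 := by rw [abs_le]; omega
      exact_mod_cast this
    push_cast at e1 e2
    have f1 : |(p.1 : ℝ)| ≤ |(p.1 : ℝ) - r.1| + |(r.1 : ℝ)| := by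
      have := abs_add_le ((p.1 : ℝ) - r.1) (r.1 : ℝ)
      simpa using this
    have f2 : |(p.2 : ℝ)| ≤ |(p.2 : ℝ) - r.2| + |(r.2 : ℝ)| := by
      have := abs_add_le ((p.2 : ℝ) - r.2) (r.2 : ℝ)
      simpa using this
    constructor <;> nlinarith [h.1, h.2]

theorem Z_eq (D : Set (ℤ × ℤ)) (a b : ℤ × ℤ) :
    Z D a b = Pool.Agent.H122R3.HX.ZL Pool.Agent.H122R3.HX.Nbr Pool.Agent.H122R3.HX.xe D a b := rfl

/-- **Contacts in an arbitrary domain.** -/
theorem dom (M : ℝ) : ∃ K : ℝ, 0 < K ∧ ∀ L : ℕ, 2 ≤ L → ∀ D : Set (ℤ × ℤ),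
    (∀ p ∈ D, |(p.1 : ℝ)| ≤ M * L ∧ |(p.2 : ℝ)| ≤ M * L) → ∀ a b : ℤ × ℤ, ∀ lam t : ℝ, 0 ≤ lam →
      0 ≤ t → ENNReal.ofReal (Real.exp (-lam)) ≤ Z D a b →
        PN D a b (K * (Real.log L ^ 2 + lam + t)) ≤ ENNReal.ofReal (Real.exp (-t)) := by
  obtain ⟨K1, hK1, h1⟩ := Pool.Agent.TH303.HX2.upper (M + 2)
  have hg := gain_pos
  set K : ℝ := 3 / gain * (K1 + 1 + 5 * (2 + gain)) with hK
  refine ⟨K, by positivity, ?_⟩
  intro L hL D hD a b lam t hlam ht hZ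
  have hl2 : (12 / 25 : ℝ) ≤ Real.log L ^ 2 := by
    have h2 : Real.log 2 ≤ Real.log L := Real.log_le_log (by norm_num) (by exact_mod_cast hL)
    have h3 := Real.log_two_gt_d9
    nlinarith
  set m : ℝ := K * (Real.log L ^ 2 + lam + t) with hm
  have hU : Z (Plus D) a b ≤ ENNReal.ofReal (Real.exp (K1 * Real.log L ^ 2)) := by
    rw [Z_eq]; exact h1 L hL (Plus D) (plus_box hL hD) a b
  have hT := tail_gen D a b m
  have hZ0 : Z D a b ≠ 0 := by
    intro h; rw [h] at hZ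
    have : 0 < ENNReal.ofReal (Real.exp (-lam)) := ENNReal.ofReal_pos.2 (Real.exp_pos _)
    exact absurd hZ (not_le.2 this)
  have hZt : Z D a b ≠ ⊤ := by
    have hsub : Z D a b ≤ Z (Plus D) a b := by
      refine ENNReal.tsum_mono_subtype (fun l : List (ℤ × ℤ) => xc ^ (l.length - 1)) ?_
      rintro l ⟨h1, h2, h3, h4, h5⟩
      exact ⟨h1, h2, h3, h4, fun p hp => Or.inl (h5 p hp)⟩
    exact ne_top_of_le_ne_top ENNReal.ofReal_ne_top (hsub.trans hU)
  unfold PN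
  rw [ENNReal.div_le_iff hZ0 hZt]
  set S := ∑' l : {l : List (ℤ × ℤ) | l ∈ Traj D a b ∧ m ≤ (N D l : ℝ)}, xc ^ (l.1.length - 1)
  have hmul : gain * ((m - 2) / 3) = (K1 + 1 + 5 * (2 + gain)) * (Real.log L ^ 2 + lam + t) -
      2 * gain / 3 := by
    rw [hm, hK]; field_simp
  have hkey : K1 * Real.log L ^ 2 + Real.log 3 + lam + t ≤ gain * ((m - 2) / 3) := by
    rw [hmul]
    have hlog3 : Real.log 3 ≤ 2 := by
      have := Real.log_le_sub_one_of_pos (show (0 : ℝ) < 3 by norm_num)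
      linarith
    have e1 : 0 ≤ K1 * (lam + t) := by positivity
    have e2 : (2 + gain) ≤ 5 * (2 + gain) * Real.log L ^ 2 := by nlinarith
    have e3 : 0 ≤ 5 * (2 + gain) * (lam + t) := by positivity
    nlinarith
  have h3 : (3 : ℝ≥0∞) = ENNReal.ofReal (Real.exp (Real.log 3)) := by
    rw [Real.exp_log (by norm_num)]; norm_num
  have hc1 : ENNReal.ofReal (Real.exp (gain * ((m - 2) / 3))) * S ≤
      ENNReal.ofReal (Real.exp (Real.log 3 + K1 * Real.log L ^ 2)) := by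
    refine hT.trans ?_
    rw [Real.exp_add, ENNReal.ofReal_mul (Real.exp_pos _).le, ← h3]
    exact mul_le_mul' le_rfl hU
  calc S = ENNReal.ofReal (Real.exp (-(gain * ((m - 2) / 3)))) *
        (ENNReal.ofReal (Real.exp (gain * ((m - 2) / 3))) * S) := by
        rw [← mul_assoc, ← ENNReal.ofReal_mul (Real.exp_pos _).le, ← Real.exp_add, neg_add_cancel,
          Real.exp_zero, ENNReal.ofReal_one, one_mul]
    _ ≤ ENNReal.ofReal (Real.exp (-(gain * ((m - 2) / 3)))) *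
        ENNReal.ofReal (Real.exp (Real.log 3 + K1 * Real.log L ^ 2)) := mul_le_mul' le_rfl hc1
    _ = ENNReal.ofReal (Real.exp (-(gain * ((m - 2) / 3)) + (Real.log 3 + K1 * Real.log L ^ 2))) := by
        rw [← ENNReal.ofReal_mul (Real.exp_pos _).le, ← Real.exp_add]
    _ ≤ ENNReal.ofReal (Real.exp (-t + -lam)) :=
        ENNReal.ofReal_le_ofReal (Real.exp_le_exp.2 (by linarith))
    _ = ENNReal.ofReal (Real.exp (-t)) * ENNReal.ofReal (Real.exp (-lam)) := by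
        rw [Real.exp_add, ENNReal.ofReal_mul (Real.exp_pos _).le]
    _ ≤ ENNReal.ofReal (Real.exp (-t)) * Z D a b := mul_le_mul' le_rfl hZ

end Pool.Agent.Q291.HB
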