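import Pool.Agent.Q291.HB.Geo

/-!
The trajectories are prolonged by two steps at both ends and moved by two units.
-/

set_option autoImplicit false

namespace Pool.Agent.Q291.HB

open scoped ENNReal

/-- move by two units -/
def mv (p : ℤ × ℤ) : ℤ × ℤ := (p.1 + 2, p.2)

theorem mv_inj : Function.Injective mv := by
  intro p q h
  unfold mv at h
  simp only [Prod.mk.injEq, add_left_inj] at h
  exact Prod.ext h.1 h.2

theorem nbr_mv {p q : ℤ × ℤ} (h : Nbr p q) : Nbr (mv p) (mv q) := by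
  unfold Nbr mv at *
  rcases h with ⟨h1, h2⟩ | ⟨h1, ⟨h2, h3⟩ | ⟨h2, h3⟩⟩
  · left
    refine ⟨h1, ?_⟩
    simp only
    omega
  · right
    simp only
    refine ⟨by omega, Or.inl ⟨h2, ?_⟩⟩
    rw [show p.1 + 2 + p.2 = (p.1 + p.2) + 2 by ring]
    exact h3.add (by decide)
  · right
    simp only
    refine ⟨by omega, Or.inr ⟨h2, ?_⟩⟩
    rw [show q.1 + 2 + q.2 = (q.1 + q.2) + 2 by ring]
    exact h3.add (by decide)

/-- the prolonged trajectory -/
def pro (q1 q2 : ℤ × ℤ) (l : List (ℤ × ℤ)) : List (ℤ × ℤ) :=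
  ((-1, 0) :: (0, 0) :: (l ++ [q1, q2])).map mv

theorem pro_length (q1 q2 : ℤ × ℤ) (l : List (ℤ × ℤ)) : (pro q1 q2 l).length = l.length + 4 := by
  simp [pro]

theorem pro_inj (q1 q2 : ℤ × ℤ) : Function.Injective (pro q1 q2) := by
  intro l l' h
  unfold pro at h
  have := List.map_injective_iff.2 mv_inj h
  simpa using this

theorem pro_mem {D D' : Set (ℤ × ℤ)} {b q1 q2 : ℤ × ℤ} (h0 : (0, 0) ∉ D) (h1 : (-1, 0) ∉ D)
    (hq1 : q1 ∉ D) (hq2 : q2 ∉ D) (a1 : q1 ≠ (0, 0)) (a2 : q1 ≠ (-1, 0)) (a3 : q2 ≠ (0, 0))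
    (a4 : q2 ≠ (-1, 0)) (a5 : q1 ≠ q2) (hb : Nbr b q1) (hb2 : Nbr q1 q2)
    (hsub : ∀ p, p ∈ D ∨ p = (-1, 0) ∨ p = (0, 0) ∨ p = q1 ∨ p = q2 → mv p ∈ D')
    {l : List (ℤ × ℤ)} (hl : l ∈ Traj D (1, 0) b) : pro q1 q2 l ∈ Traj D' (1, 0) (mv q2) := by
  obtain ⟨t1, t2, t3, t4, t5⟩ := hl
  have hne : l ≠ [] := by rintro rfl; simp at t1
  refine ⟨?_, ?_, ?_, ?_, ?_⟩
  · simp [pro, mv]
  · have e : pro q1 q2 l = (((-1, 0) :: (0, 0) :: (l ++ [q1])).map mv) ++ [mv q2] := by
      simp [pro]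
    rw [e, List.getLast?_concat]
  · unfold pro
    refine List.Nodup.map mv_inj ?_
    rw [List.nodup_cons, List.nodup_cons, List.nodup_append]
    refine ⟨?_, ?_, t3, ?_, ?_⟩
    · intro hm
      simp only [List.mem_cons, List.mem_append, List.not_mem_nil, or_false] at hm
      rcases hm with hm | hm | hm | hm
      · simp at hm
      · exact h1 (t5 _ hm)
      · exact a2 hm.symm
      · exact a4 hm.symm
    · intro hm
      simp only [List.mem_cons, List.mem_append, List.not_mem_nil, or_false] at hm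
      rcases hm with hm | hm | hm
      · exact h0 (t5 _ hm)
      · exact a1 hm.symm
      · exact a3 hm.symm
    · simp [a5]
    · intro p hp q hq hpq
      subst hpq
      simp only [List.mem_cons, List.not_mem_nil, or_false] at hq
      rcases hq with rfl | rfl
      · exact hq1 (t5 _ hp)
      · exact hq2 (t5 _ hp)
  · unfold pro
    rw [List.isChain_map]
    refine List.IsChain.imp (fun {p q} h => nbr_mv h) ?_
    have hlast : l.getLast hne = b := by
      rw [List.getLast?_eq_getLast_of_ne_nil hne] at t2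
      exact Option.some.inj t2
    have h3 : (l ++ [q1, q2]).IsChain Nbr := by
      rw [List.isChain_append]
      refine ⟨t4, ?_, ?_⟩
      · simp [hb2]
      · intro p hp q hq
        rw [List.getLast?_eq_getLast_of_ne_nil hne, hlast] at hp
        simp only [Option.mem_def, Option.some.injEq, List.head?_cons] at hp hq
        rw [← hp, ← hq]
        exact hb
    obtain ⟨v, t, rfl⟩ := List.exists_cons_of_ne_nil hne
    simp only [List.head?_cons, Option.some.injEq] at t1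
    subst t1
    rw [List.cons_append] at h3 ⊢
    refine List.isChain_cons_cons.2 ⟨?_, List.isChain_cons_cons.2 ⟨?_, h3⟩⟩
    · left; simp
    · left; simp
  · intro p hp
    unfold pro at hp
    rw [List.mem_map] at hp
    obtain ⟨q, hq, rfl⟩ := hp
    apply hsub
    simp only [List.mem_cons, List.mem_append, List.not_mem_nil, or_false] at hq
    rcases hq with h | h | h | h | h
    · exact Or.inr (Or.inl h)
    · exact Or.inr (Or.inr (Or.inl h))
    · exact Or.inl (t5 _ h)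
    · exact Or.inr (Or.inr (Or.inr (Or.inl h)))
    · exact Or.inr (Or.inr (Or.inr (Or.inr h)))

/-- the masses -/
theorem pro_le (x : ℝ≥0∞) {D D' : Set (ℤ × ℤ)} {b q1 q2 : ℤ × ℤ} (h0 : (0, 0) ∉ D)
    (h1 : (-1, 0) ∉ D)
    (hq1 : q1 ∉ D) (hq2 : q2 ∉ D) (a1 : q1 ≠ (0, 0)) (a2 : q1 ≠ (-1, 0)) (a3 : q2 ≠ (0, 0))
    (a4 : q2 ≠ (-1, 0)) (a5 : q1 ≠ q2) (hb : Nbr b q1) (hb2 : Nbr q1 q2)
    (hsub : ∀ p, p ∈ D ∨ p = (-1, 0) ∨ p = (0, 0) ∨ p = q1 ∨ p = q2 → mv p ∈ D') :
    x ^ 4 * ∑' l : Traj D (1, 0) b, x ^ (l.1.length - 1) ≤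
      ∑' l : Traj D' (1, 0) (mv q2), x ^ (l.1.length - 1) := by
  rw [← ENNReal.tsum_mul_left]
  let g : Traj D (1, 0) b → Traj D' (1, 0) (mv q2) := fun l =>
    ⟨pro q1 q2 l.1, pro_mem h0 h1 hq1 hq2 a1 a2 a3 a4 a5 hb hb2 hsub l.2⟩
  have hg : Function.Injective g := by
    intro l l' h
    exact Subtype.ext (pro_inj q1 q2 (congrArg Subtype.val h))
  refine le_trans (le_of_eq ?_) (ENNReal.tsum_comp_le_tsum_of_injective hg
    (fun l => x ^ (l.1.length - 1)))
  refine tsum_congr fun l => ?_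
  show x ^ 4 * x ^ (l.1.length - 1) = x ^ ((pro q1 q2 l.1).length - 1)
  rw [pro_length, ← pow_add]
  congr 1
  have : 0 < l.1.length := by
    rw [List.length_pos_iff]
    intro h
    have := l.2.1
    rw [h] at this
    simp at this
  omega

/-- two classes -/
theorem two_class {α : Type*} (f g g' : α → ℕ) (w : α → ℝ≥0∞) (q : ℝ≥0∞) (hq : 1 ≤ q)
    (h : ∀ l, f l ≤ 4 + g l + g' l) :
    ∑' l, w l * q ^ ((f l - 4) / 2) ≤ ∑' l, w l * q ^ g l + ∑' l, w l * q ^ g' l := by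
  rw [← ENNReal.tsum_add]
  refine ENNReal.tsum_le_tsum fun l => ?_
  have hmono : ∀ {i j : ℕ}, i ≤ j → q ^ i ≤ q ^ j := fun hij => pow_le_pow_right₀ hq hij
  have := h l
  rcases le_total (g l) (g' l) with h1 | h1
  · exact le_trans (mul_le_mul' le_rfl (hmono (by omega))) le_add_self
  · exact le_trans (mul_le_mul' le_rfl (hmono (by omega))) le_self_add

end Pool.Agent.Q291.HB
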