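import Pool.Agent.Q291.HB.Ineq

/-!
The inequality for all boundary hexagons of an arbitrary domain.
-/

set_option autoImplicit false

namespace Pool.Agent.Q291.HB

open scoped ENNReal

/-- the boundary hexagons of `D` which `l` visits in a single run -/
def con (D : Set (ℤ × ℤ)) (l : List (ℤ × ℤ)) : Set (ℤ × ℤ) :=
  {c | Even (c.1 + c.2) ∧ ¬ Hex c ⊆ D ∧ Single c l}

/-- the number of contacts -/
noncomputable def N (D : Set (ℤ × ℤ)) (l : List (ℤ × ℤ)) : ℕ := (con D l).ncard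

/-- the contacts of one class -/
def conr (D : Set (ℤ × ℤ)) (ρ : ℤ) (l : List (ℤ × ℤ)) : Set (ℤ × ℤ) := {c ∈ con D l | c.1 % 3 = ρ}

/-- `D` and the hexagons which meet it -/
def Plus (D : Set (ℤ × ℤ)) : Set (ℤ × ℤ) :=
  D ∪ {p | ∃ c : ℤ × ℤ, Even (c.1 + c.2) ∧ p ∈ Hex c ∧ (Hex c ∩ D).Nonempty}

theorem single_mem {c : ℤ × ℤ} {l : List (ℤ × ℤ)} (h : Single c l) : ∃ p ∈ l, p ∈ Hex c := by
  obtain ⟨l₁, r, l₂, rfl, h2, h5, hr, -, -⟩ := h
  cases r with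
  | nil => simp at h2
  | cons p r => exact ⟨p, by simp, hr p (by simp)⟩

theorem con_finite (D : Set (ℤ × ℤ)) (l : List (ℤ × ℤ)) : (con D l).Finite := by
  have hsub : con D l ⊆ ⋃ p ∈ l.toFinset, (Set.Icc (p.1 - 2) p.1 ×ˢ Set.Icc (p.2 - 1) p.2) := by
    rintro c ⟨-, -, hs⟩
    obtain ⟨p, hp, hpc⟩ := single_mem hs
    rw [mem_Hex] at hpc
    simp only [Set.mem_iUnion]
    refine ⟨p, by simpa using hp, ?_⟩
    simp only [Set.mem_prod, Set.mem_Icc]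
    omega
  refine Set.Finite.subset (Set.Finite.biUnion (Finset.finite_toSet _) fun p _ => ?_) hsub
  exact (Set.finite_Icc _ _).prod (Set.finite_Icc _ _)

theorem hex_disjoint {c c' : ℤ × ℤ} (hc : Even (c.1 + c.2)) (hc' : Even (c'.1 + c'.2))
    (h : c.1 % 3 = c'.1 % 3) (hne : c ≠ c') : Disjoint (Hex c) (Hex c') := by
  rw [Set.disjoint_left]
  intro p hp hp'
  rw [mem_Hex] at hp hp'
  apply hne
  obtain ⟨k, hk⟩ := hc
  obtain ⟨k', hk'⟩ := hc'
  have h1 : c.1 = c'.1 := by omega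
  have h2 : c.2 = c'.2 := by omega
  exact Prod.ext h1 h2

theorem single_finite (l : List (ℤ × ℤ)) : {c : ℤ × ℤ | Single c l}.Finite := by
  have hsub : {c : ℤ × ℤ | Single c l} ⊆
      ⋃ p ∈ l.toFinset, (Set.Icc (p.1 - 2) p.1 ×ˢ Set.Icc (p.2 - 1) p.2) := by
    intro c hs
    obtain ⟨p, hp, hpc⟩ := single_mem hs
    rw [mem_Hex] at hpc
    simp only [Set.mem_iUnion]
    refine ⟨p, by simpa using hp, ?_⟩
    simp only [Set.mem_prod, Set.mem_Icc]
    omega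
  refine Set.Finite.subset (Set.Finite.biUnion (Finset.finite_toSet _) fun p _ => ?_) hsub
  exact (Set.finite_Icc _ _).prod (Set.finite_Icc _ _)

/-- The inequality for an arbitrary family of disjoint hexagons. -/
theorem main_set (x : ℝ≥0∞) (hx : x ≤ 1) (D : Set (ℤ × ℤ)) (a b : ℤ × ℤ) (𝒮 : Set (ℤ × ℤ))
    (h1 : ∀ c ∈ 𝒮, Even (c.1 + c.2)) (h2 : ∀ c ∈ 𝒮, ¬ Hex c ⊆ D)
    (h3 : ∀ c ∈ 𝒮, ∀ c' ∈ 𝒮, c ≠ c' → Disjoint (Hex c) (Hex c')) :
    ∑' l : Traj D a b, x ^ (l.1.length - 1) * (1 + x ^ 4) ^ {c ∈ 𝒮 | Single c l.1}.ncard ≤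
      ∑' l : Traj (D ∪ ⋃ c ∈ {c ∈ 𝒮 | (Hex c ∩ D).Nonempty}, Hex c) a b,
        x ^ (l.1.length - 1) := by
  classical
  have hfin : ∀ l, {c ∈ 𝒮 | Single c l}.Finite := fun l =>
    (single_finite l).subset (fun c hc => hc.2)
  rw [ENNReal.tsum_eq_iSup_sum]
  refine iSup_le fun F => ?_
  set S : Finset (ℤ × ℤ) := F.biUnion fun l => (hfin l.1).toFinset with hS
  have hSmem : ∀ c ∈ S, c ∈ 𝒮 ∧ (Hex c ∩ D).Nonempty := by
    intro c hc
    rw [hS, Finset.mem_biUnion] at hc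
    obtain ⟨l, -, hc⟩ := hc
    rw [Set.Finite.mem_toFinset] at hc
    obtain ⟨p, hp, hpc⟩ := single_mem hc.2
    exact ⟨hc.1, ⟨p, hpc, l.2.2.2.2.2 p hp⟩⟩
  have hle : ∀ l ∈ F, {c ∈ 𝒮 | Single c l.1}.ncard ≤ cnt S l.1 := by
    intro l hl
    rw [Set.ncard_eq_toFinset_card _ (hfin l.1)]
    unfold cnt
    apply Finset.card_le_card
    intro c hc
    rw [Finset.mem_filter]
    refine ⟨?_, ((Set.Finite.mem_toFinset _).1 hc).2⟩
    rw [hS, Finset.mem_biUnion]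
    exact ⟨l, hl, hc⟩
  calc ∑ l ∈ F, x ^ (l.1.length - 1) * (1 + x ^ 4) ^ {c ∈ 𝒮 | Single c l.1}.ncard
      ≤ ∑ l ∈ F, x ^ (l.1.length - 1) * (1 + x ^ 4) ^ cnt S l.1 := by
        refine Finset.sum_le_sum fun l hl => ?_
        gcongr
        · simp
        · exact hle l hl
    _ ≤ ∑' l : Traj D a b, x ^ (l.1.length - 1) * (1 + x ^ 4) ^ cnt S l.1 :=
        ENNReal.sum_le_tsum F
    _ ≤ ∑' l : Traj (D ∪ ⋃ c ∈ S, Hex c) a b, x ^ (l.1.length - 1) :=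
        main_fin x hx a b S D (fun c hc => h1 c (hSmem c hc).1) (fun c hc => h2 c (hSmem c hc).1)
          (fun c hc c' hc' hne => h3 c (hSmem c hc).1 c' (hSmem c' hc').1 hne)
    _ ≤ _ := by
        refine ENNReal.tsum_mono_subtype (fun l : List (ℤ × ℤ) => x ^ (l.length - 1)) ?_
        rintro l ⟨h1, h2, h3, h4, h5⟩
        refine ⟨h1, h2, h3, h4, fun p hp => ?_⟩
        rcases h5 p hp with h | h
        · exact Or.inl h
        · simp only [Set.mem_iUnion] at h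
          obtain ⟨c, hc, hpc⟩ := h
          right
          simp only [Set.mem_iUnion]
          exact ⟨c, hSmem c hc, hpc⟩

theorem main_class (x : ℝ≥0∞) (hx : x ≤ 1) (D : Set (ℤ × ℤ)) (a b : ℤ × ℤ) (ρ : ℤ) :
    ∑' l : Traj D a b, x ^ (l.1.length - 1) * (1 + x ^ 4) ^ (conr D ρ l.1).ncard ≤
      ∑' l : Traj (Plus D) a b, x ^ (l.1.length - 1) := by
  have h := main_set x hx D a b {c | Even (c.1 + c.2) ∧ ¬ Hex c ⊆ D ∧ c.1 % 3 = ρ}
    (fun c hc => hc.1) (fun c hc => hc.2.1)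
    (fun c hc c' hc' hne => hex_disjoint hc.1 hc'.1 (hc.2.2.trans hc'.2.2.symm) hne)
  have e : ∀ l, conr D ρ l =
      {c ∈ {c : ℤ × ℤ | Even (c.1 + c.2) ∧ ¬ Hex c ⊆ D ∧ c.1 % 3 = ρ} | Single c l} := by
    intro l
    ext c
    simp only [conr, con, Set.mem_setOf_eq]
    tauto
  simp only [e]
  refine h.trans ?_
  refine ENNReal.tsum_mono_subtype (fun l : List (ℤ × ℤ) => x ^ (l.length - 1)) ?_
  rintro l ⟨h1, h2, h3, h4, h5⟩
  refine ⟨h1, h2, h3, h4, fun p hp => ?_⟩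
  rcases h5 p hp with h | h
  · exact Or.inl h
  · simp only [Set.mem_iUnion] at h
    obtain ⟨c, hc, hpc⟩ := h
    exact Or.inr ⟨c, hc.1.1, hpc, hc.2⟩

theorem ncard_split (D : Set (ℤ × ℤ)) (l : List (ℤ × ℤ)) :
    N D l ≤ (conr D 0 l).ncard + (conr D 1 l).ncard + (conr D 2 l).ncard := by
  unfold N
  have hsub : con D l ⊆ (conr D 0 l ∪ conr D 1 l) ∪ conr D 2 l := by
    intro c hc
    have : c.1 % 3 = 0 ∨ c.1 % 3 = 1 ∨ c.1 % 3 = 2 := by omega
    rcases this with h | h | h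
    · exact Or.inl (Or.inl ⟨hc, h⟩)
    · exact Or.inl (Or.inr ⟨hc, h⟩)
    · exact Or.inr ⟨hc, h⟩
  have hf : ∀ ρ, (conr D ρ l).Finite := fun ρ => (con_finite D l).subset (fun c hc => hc.1)
  calc (con D l).ncard ≤ ((conr D 0 l ∪ conr D 1 l) ∪ conr D 2 l).ncard :=
        Set.ncard_le_ncard hsub (((hf 0).union (hf 1)).union (hf 2))
    _ ≤ (conr D 0 l ∪ conr D 1 l).ncard + (conr D 2 l).ncard := Set.ncard_union_le _ _
    _ ≤ _ := by
      have := Set.ncard_union_le (conr D 0 l) (conr D 1 l)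
      omega

/-- **General inequality.** -/
theorem main (x : ℝ≥0∞) (hx : x ≤ 1) (D : Set (ℤ × ℤ)) (a b : ℤ × ℤ) :
    ∑' l : Traj D a b, x ^ (l.1.length - 1) * (1 + x ^ 4) ^ (N D l.1 / 3) ≤
      3 * ∑' l : Traj (Plus D) a b, x ^ (l.1.length - 1) := by
  have h : ∀ l : List (ℤ × ℤ), (1 + x ^ 4) ^ (N D l / 3) ≤
      (1 + x ^ 4) ^ (conr D 0 l).ncard + (1 + x ^ 4) ^ (conr D 1 l).ncard +
        (1 + x ^ 4) ^ (conr D 2 l).ncard := by
    intro l
    have h3 := ncard_split D l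
    have hor : N D l / 3 ≤ (conr D 0 l).ncard ∨ N D l / 3 ≤ (conr D 1 l).ncard ∨
        N D l / 3 ≤ (conr D 2 l).ncard := by omega
    have hmono : ∀ {i j : ℕ}, i ≤ j → (1 + x ^ 4) ^ i ≤ (1 + x ^ 4) ^ j := fun hij =>
      pow_le_pow_right₀ (by simp) hij
    rcases hor with h | h | h
    · exact (hmono h).trans (le_self_add.trans le_self_add)
    · exact (hmono h).trans (le_add_self.trans le_self_add)
    · exact (hmono h).trans le_add_self
  calc ∑' l : Traj D a b, x ^ (l.1.length - 1) * (1 + x ^ 4) ^ (N D l.1 / 3)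
      ≤ ∑' l : Traj D a b, (x ^ (l.1.length - 1) * (1 + x ^ 4) ^ (conr D 0 l.1).ncard +
          x ^ (l.1.length - 1) * (1 + x ^ 4) ^ (conr D 1 l.1).ncard +
          x ^ (l.1.length - 1) * (1 + x ^ 4) ^ (conr D 2 l.1).ncard) := by
        refine ENNReal.tsum_le_tsum fun l => ?_
        rw [← mul_add, ← mul_add]
        exact mul_le_mul' le_rfl (h l.1)
    _ = ∑' l : Traj D a b, x ^ (l.1.length - 1) * (1 + x ^ 4) ^ (conr D 0 l.1).ncard +
          ∑' l : Traj D a b, x ^ (l.1.length - 1) * (1 + x ^ 4) ^ (conr D 1 l.1).ncard +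
          ∑' l : Traj D a b, x ^ (l.1.length - 1) * (1 + x ^ 4) ^ (conr D 2 l.1).ncard := by
        rw [ENNReal.tsum_add, ENNReal.tsum_add]
    _ ≤ ∑' l : Traj (Plus D) a b, x ^ (l.1.length - 1) +
          ∑' l : Traj (Plus D) a b, x ^ (l.1.length - 1) +
          ∑' l : Traj (Plus D) a b, x ^ (l.1.length - 1) :=
        add_le_add (add_le_add (main_class x hx D a b 0) (main_class x hx D a b 1))
          (main_class x hx D a b 2)
    _ = 3 * ∑' l : Traj (Plus D) a b, x ^ (l.1.length - 1) := by ring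

end Pool.Agent.Q291.HB
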