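import Pool.Agent.Q291.HB.Gen

/-!
Visits of the boundary vertices of a strip (or a half-plane) in the direction of the levels
`p.1 - p.2`: such a visit gives a single run along a boundary hexagon.
-/

set_option autoImplicit false

namespace Pool.Agent.Q291.HB

open scoped ENNReal

theorem single_of_index {l : List (ℤ × ℤ)} {c : ℤ × ℤ} {i k : ℕ} (hk2 : 2 ≤ k) (hk5 : k ≤ 5)
    (hik : i + k ≤ l.length)
    (h : ∀ (j : ℕ) (hj : j < l.length), l[j] ∈ Hex c ↔ i ≤ j ∧ j < i + k) : Single c l := by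
  refine ⟨l.take i, (l.drop i).take k, l.drop (i + k), ?_, ?_, ?_, ?_, ?_, ?_⟩
  · rw [← List.drop_drop, List.take_append_drop, List.take_append_drop]
  · rw [List.length_take, List.length_drop]; omega
  · rw [List.length_take, List.length_drop]; omega
  · intro p hp
    obtain ⟨j, hj, rfl⟩ := List.mem_iff_getElem.1 hp
    rw [List.length_take, List.length_drop] at hj
    rw [List.getElem_take, List.getElem_drop, h]
    omega
  · intro p hp
    obtain ⟨j, hj, rfl⟩ := List.mem_iff_getElem.1 hp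
    rw [List.length_take] at hj
    rw [List.getElem_take, h]
    omega
  · intro p hp
    obtain ⟨j, hj, rfl⟩ := List.mem_iff_getElem.1 hp
    rw [List.length_drop] at hj
    rw [List.getElem_drop, h]
    omega

theorem nb_index {D : Set (ℤ × ℤ)} {a b : ℤ × ℤ} {l : List (ℤ × ℤ)} (hl : l ∈ Traj D a b)
    {v n o : ℤ × ℤ} (hv : v ∈ l) (hva : v ≠ a) (hvb : v ≠ b)
    (h : ∀ p ∈ D, Nbr p v → p = n ∨ p = o) :
    ∃ i j : ℕ, (∃ hi : i < l.length, l[i] = v) ∧ (∃ hj : j < l.length, l[j] = n) ∧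
      (j = i + 1 ∨ i = j + 1) := by
  obtain ⟨h1, h2, h3, h4, h5⟩ := hl
  obtain ⟨i, hi, rfl⟩ := List.mem_iff_getElem.1 hv
  have hi0 : i ≠ 0 := by
    rintro rfl
    apply hva
    rw [List.head?_eq_getElem?, List.getElem?_eq_getElem hi] at h1
    exact Option.some.inj h1
  have hil : i + 1 < l.length := by
    by_contra hcon
    apply hvb
    have : i = l.length - 1 := by omega
    rw [List.getLast?_eq_getElem?, ← this, List.getElem?_eq_getElem hi] at h2
    exact Option.some.inj h2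
  have c1 : Nbr l[i - 1] l[i] := by
    have := List.isChain_iff_getElem.1 h4 (i - 1) (by omega)
    convert this using 2
    omega
  have c2 : Nbr l[i + 1] l[i] := nbr_symm (List.isChain_iff_getElem.1 h4 i hil)
  rcases h _ (h5 _ (List.getElem_mem _)) c1 with e1 | e1
  · exact ⟨i, i - 1, ⟨hi, rfl⟩, ⟨by omega, e1⟩, Or.inr (by omega)⟩
  · rcases h _ (h5 _ (List.getElem_mem _)) c2 with e2 | e2
    · exact ⟨i, i + 1, ⟨hi, rfl⟩, ⟨by omega, e2⟩, Or.inl rfl⟩
    · exfalso
      have := (List.Nodup.getElem_inj_iff h3).1 (e1.trans e2.symm)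
      omega

theorem single_of_corner {D : Set (ℤ × ℤ)} {a b : ℤ × ℤ} {l : List (ℤ × ℤ)} (hl : l ∈ Traj D a b)
    {c v n t o1 o2 : ℤ × ℤ} (hv : v ∈ l) (hva : v ≠ a) (hvb : v ≠ b) (hta : t ≠ a) (htb : t ≠ b)
    (h1 : ∀ p ∈ D, Nbr p v → p = n ∨ p = o1) (h2 : ∀ p ∈ D, Nbr p t → p = n ∨ p = o2)
    (h3 : ∀ p ∈ D, (p ∈ Hex c ↔ p = v ∨ p = n ∨ p = t)) (hvn : v ≠ n) (hvt : v ≠ t)
    (hnt : n ≠ t) : Single c l := by
  obtain ⟨i, j, ⟨hi, ei⟩, ⟨hj, ej⟩, hij⟩ := nb_index hl hv hva hvb h1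
  have hnd := hl.2.2.1
  have hinj : ∀ {x y : ℕ} (hx : x < l.length) (hy : y < l.length), l[x] = l[y] → x = y :=
    fun hx hy h => (List.Nodup.getElem_inj_iff hnd).1 h
  have hmem : ∀ (x : ℕ) (hx : x < l.length), l[x] ∈ D := fun x hx =>
    hl.2.2.2.2 _ (List.getElem_mem _)
  by_cases ht : t ∈ l
  · obtain ⟨k, j', ⟨hk, ek⟩, ⟨hj', ej'⟩, hkj⟩ := nb_index hl ht hta htb h2
    have hjj : j' = j := hinj hj' hj (ej'.trans ej.symm)
    subst hjj
    have hik : i ≠ k := fun h => hvt (by subst h; exact ei.symm.trans ek)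
    refine single_of_index (i := min i (min j' k)) (k := 3) (by norm_num) (by norm_num)
      (by omega) ?_
    intro x hx
    rw [h3 _ (hmem x hx)]
    constructor
    · rintro (h | h | h)
      · have := hinj hx hi (h.trans ei.symm); omega
      · have := hinj hx hj (h.trans ej.symm); omega
      · have := hinj hx hk (h.trans ek.symm); omega
    · intro h
      have : x = i ∨ x = j' ∨ x = k := by omega
      rcases this with rfl | rfl | rfl
      · exact Or.inl ei
      · exact Or.inr (Or.inl ej)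
      · exact Or.inr (Or.inr ek)
  · refine single_of_index (i := min i j) (k := 2) (by norm_num) (by norm_num) (by omega) ?_
    intro x hx
    rw [h3 _ (hmem x hx)]
    constructor
    · rintro (h | h | h)
      · have := hinj hx hi (h.trans ei.symm); omega
      · have := hinj hx hj (h.trans ej.symm); omega
      · exact absurd (h ▸ List.getElem_mem hx) ht
    · intro h
      have : x = i ∨ x = j := by omega
      rcases this with rfl | rfl
      · exact Or.inl ei
      · exact Or.inr (Or.inl ej)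

/-- the lowest level: the visited vertex `(x + 1, x)` gives a single run along the hexagon `(x, x)` -/
theorem low_single {D : Set (ℤ × ℤ)} (hD : ∀ p ∈ D, 1 ≤ p.1 - p.2) {a b : ℤ × ℤ}
    {l : List (ℤ × ℤ)} (hl : l ∈ Traj D a b) (x : ℤ) (hv : (x + 1, x) ∈ l) (hva : (x + 1, x) ≠ a)
    (hvb : (x + 1, x) ≠ b) (hta : (x + 2, x + 1) ≠ a) (htb : (x + 2, x + 1) ≠ b) :
    Single (x, x) l := by
  refine single_of_corner hl (n := (x + 2, x)) (o1 := (x + 1, x - 1)) (o2 := (x + 3, x + 1))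
    (t := (x + 2, x + 1)) hv hva hvb hta htb ?_ ?_ ?_ (by simp) (by simp) (by simp)
  · rintro ⟨p, q⟩ hp h
    have := hD _ hp
    unfold Nbr at h
    simp only [Prod.mk.injEq] at h this ⊢
    rcases h with ⟨h1, h2⟩ | ⟨h1, ⟨h2, h3⟩ | ⟨h2, h3⟩⟩
    · omega
    · omega
    · obtain ⟨k, hk⟩ := h3; omega
  · rintro ⟨p, q⟩ hp h
    have := hD _ hp
    unfold Nbr at h
    simp only [Prod.mk.injEq] at h this ⊢
    rcases h with ⟨h1, h2⟩ | ⟨h1, ⟨h2, h3⟩ | ⟨h2, h3⟩⟩
    · omega
    · omega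
    · obtain ⟨k, hk⟩ := h3; omega
  · rintro ⟨p, q⟩ hp
    have := hD _ hp
    rw [mem_Hex]
    simp only [Prod.mk.injEq] at this ⊢
    omega

/-- the highest level `2 T`: the visited vertex `(2 T + x, x)` gives a single run along the hexagon
`(2 T + x, x)` -/
theorem top_single {D : Set (ℤ × ℤ)} {T : ℤ} (hD : ∀ p ∈ D, p.1 - p.2 ≤ 2 * T) {a b : ℤ × ℤ}
    {l : List (ℤ × ℤ)} (hl : l ∈ Traj D a b) (x : ℤ) (hv : (2 * T + x, x) ∈ l)
    (hva : (2 * T + x, x) ≠ a) (hvb : (2 * T + x, x) ≠ b) (hta : (2 * T + x + 1, x + 1) ≠ a)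
    (htb : (2 * T + x + 1, x + 1) ≠ b) : Single (2 * T + x, x) l := by
  refine single_of_corner hl (n := (2 * T + x, x + 1)) (o1 := (2 * T + x - 1, x))
    (o2 := (2 * T + x + 1, x + 2)) (t := (2 * T + x + 1, x + 1)) hv hva hvb hta htb ?_ ?_ ?_
    (by simp) (by simp) (by simp)
  · rintro ⟨p, q⟩ hp h
    have := hD _ hp
    unfold Nbr at h
    simp only [Prod.mk.injEq] at h this ⊢
    rcases h with ⟨h1, h2⟩ | ⟨h1, ⟨h2, h3⟩ | ⟨h2, h3⟩⟩
    · omega
    · obtain ⟨k, hk⟩ := h3; omega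
    · omega
  · rintro ⟨p, q⟩ hp h
    have := hD _ hp
    unfold Nbr at h
    simp only [Prod.mk.injEq] at h this ⊢
    rcases h with ⟨h1, h2⟩ | ⟨h1, ⟨h2, h3⟩ | ⟨h2, h3⟩⟩
    · omega
    · obtain ⟨k, hk⟩ := h3; omega
    · omega
  · rintro ⟨p, q⟩ hp
    have := hD _ hp
    rw [mem_Hex]
    simp only [Prod.mk.injEq] at this ⊢
    omega

end Pool.Agent.Q291.HB
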