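import Pool.Agent.Q291.HB.Ext
import Pool.Agent.Q291.HB.Gen

/-!
The visits of the boundary of the half-plane, between two boundary vertices.
-/

set_option autoImplicit false

namespace Pool.Agent.Q291.HB

open scoped ENNReal

/-- the half-plane -/
def HPl : Set (ℤ × ℤ) := {p | 1 ≤ p.1 - p.2}

/-- the visited boundary vertices of the half-plane -/
def Vis (l : List (ℤ × ℤ)) : Set (ℤ × ℤ) := {p | p ∈ l ∧ p.1 - p.2 = 1}

theorem Vis_finite (l : List (ℤ × ℤ)) : (Vis l).Finite :=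
  (List.finite_toSet l).subset fun _ hp => hp.1

/-- the classes of hexagons at the lower boundary -/
def LS (ε : ℤ) (X : Set ℤ) : Set (ℤ × ℤ) := {c | c.1 = c.2 ∧ c.1 % 2 = ε ∧ c.1 ∉ X}

theorem LS_even {ε : ℤ} {X : Set ℤ} {c : ℤ × ℤ} (h : c ∈ LS ε X) : Even (c.1 + c.2) := by
  rw [← h.1]
  exact ⟨c.1, rfl⟩

theorem LS_disj {ε : ℤ} {X : Set ℤ} {c c' : ℤ × ℤ} (h : c ∈ LS ε X) (h' : c' ∈ LS ε X)
    (hne : c ≠ c') : Disjoint (Hex c) (Hex c') := by
  rw [Set.disjoint_left]
  intro p hp hp'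
  rw [mem_Hex] at hp hp'
  obtain ⟨a1, a2, -⟩ := h
  obtain ⟨b1, b2, -⟩ := h'
  apply hne
  apply Prod.ext <;> omega

/-- the counting -/
theorem low_count {D : Set (ℤ × ℤ)} (hD : ∀ p ∈ D, 1 ≤ p.1 - p.2) {a b : ℤ × ℤ}
    {l : List (ℤ × ℤ)} (hl : l ∈ Traj D a b) {X : Set ℤ}
    (ha : ∀ x ∉ X, (x + 1, x) ≠ a ∧ (x + 2, x + 1) ≠ a)
    (hb : ∀ x ∉ X, (x + 1, x) ≠ b ∧ (x + 2, x + 1) ≠ b) {k : ℕ} (hX : X.Finite) (hk : X.ncard ≤ k) :
    (Vis l).ncard ≤ k + {c ∈ LS 0 X | Single c l}.ncard + {c ∈ LS 1 X | Single c l}.ncard := by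
  have hf : ∀ ε, {c ∈ LS ε X | Single c l}.Finite := fun ε =>
    (single_finite l).subset fun c hc => hc.2
  let φ : ℤ × ℤ → ℤ × ℤ := fun c => (c.1 + 1, c.2)
  have hφ : Function.Injective φ := by
    intro c c' h
    simp only [φ, Prod.mk.injEq] at h
    apply Prod.ext <;> omega
  let ψ : ℤ → ℤ × ℤ := fun x => (x + 1, x)
  have hsub : Vis l ⊆ (ψ '' X ∪ φ '' {c ∈ LS 0 X | Single c l}) ∪ φ '' {c ∈ LS 1 X | Single c l} := by
    rintro ⟨u, x⟩ ⟨hp, hx⟩
    simp only at hx
    have hu : u = x + 1 := by omega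
    subst hu
    by_cases hxX : x ∈ X
    · exact Or.inl (Or.inl ⟨x, hxX, rfl⟩)
    · have hs := low_single hD hl x hp (ha x hxX).1 (hb x hxX).1 (ha x hxX).2 (hb x hxX).2
      have h2 : x % 2 = 0 ∨ x % 2 = 1 := by omega
      rcases h2 with h2 | h2
      · exact Or.inl (Or.inr ⟨(x, x), ⟨⟨rfl, h2, hxX⟩, hs⟩, rfl⟩)
      · exact Or.inr ⟨(x, x), ⟨⟨rfl, h2, hxX⟩, hs⟩, rfl⟩
  have h1 := Set.ncard_le_ncard hsub (((hX.image _).union ((hf 0).image _)).union ((hf 1).image _))
  have h2 := Set.ncard_union_le (ψ '' X ∪ φ '' {c ∈ LS 0 X | Single c l})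
    (φ '' {c ∈ LS 1 X | Single c l})
  have h3 := Set.ncard_union_le (ψ '' X) (φ '' {c ∈ LS 0 X | Single c l})
  have h4 := Set.ncard_image_le (f := ψ) hX
  have h5 := Set.ncard_image_le (f := φ) (hf 0)
  have h6 := Set.ncard_image_le (f := φ) (hf 1)
  omega

/-- one class -/
theorem half_class (x : ℝ≥0∞) (hx : x ≤ 1) {j : ℤ} (hj : j ≠ 0) (ε : ℤ) :
    x ^ 4 * ∑' l : Traj HPl (1, 0) (1 + j, j), x ^ (l.1.length - 1) *
      (1 + x ^ 4) ^ {c ∈ LS ε {-1, 0, j - 1, j} | Single c l.1}.ncard ≤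
      ∑' l : Traj HPl (1, 0) (1 + j, j), x ^ (l.1.length - 1) := by
  have h := main_set x hx HPl (1, 0) (1 + j, j) (LS ε {-1, 0, j - 1, j}) (fun c hc => LS_even hc)
    (fun c hc hsub => by
      have : cor c 0 ∈ HPl := hsub ⟨0, rfl⟩
      have h1 := hc.1
      simp only [cor, HPl, Matrix.cons_val_zero, Set.mem_ofPred_eq] at this
      omega)
    (fun c hc c' hc' hne => LS_disj hc hc' hne)
  refine (mul_le_mul' le_rfl h).trans ?_
  have e : ((1 + j, j) : ℤ × ℤ) = mv (j - 1, j) := by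
    unfold mv
    simp only [Prod.mk.injEq, and_true]
    ring
  have hmem : ∀ p ∈ HPl ∪ ⋃ c ∈ {c ∈ LS ε {-1, 0, j - 1, j} | (Hex c ∩ HPl).Nonempty}, Hex c,
      1 ≤ p.1 - p.2 ∨ ∃ y : ℤ, y ≠ -1 ∧ y ≠ 0 ∧ y ≠ j - 1 ∧ y ≠ j ∧ y ≤ p.1 ∧ p.1 ≤ y + 2 ∧
        y ≤ p.2 ∧ p.2 ≤ y + 1 := by
    intro p hp
    rcases hp with hp | hp
    · exact Or.inl hp
    · simp only [Set.mem_iUnion] at hp
      obtain ⟨c, ⟨⟨h1, h2, h3⟩, -⟩, hpc⟩ := hp
      rw [mem_Hex] at hpc
      right
      simp only [Set.mem_insert_iff, Set.mem_singleton_iff, not_or] at h3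
      exact ⟨c.1, h3.1, h3.2.1, h3.2.2.1, h3.2.2.2, hpc.1, hpc.2.1, by omega, by omega⟩
  have key := pro_le x (D := HPl ∪ ⋃ c ∈ {c ∈ LS ε {-1, 0, j - 1, j} | (Hex c ∩ HPl).Nonempty}, Hex c)
    (D' := HPl) (b := (1 + j, j)) (q1 := (j, j)) (q2 := (j - 1, j))
    (fun hp => by
      rcases hmem _ hp with h | ⟨y, h1, h2, h3, h4, h5, h6, h7, h8⟩
      · simp at h
      · simp only at *; omega)
    (fun hp => by
      rcases hmem _ hp with h | ⟨y, h1, h2, h3, h4, h5, h6, h7, h8⟩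
      · simp at h
      · simp only at *; omega)
    (fun hp => by
      rcases hmem _ hp with h | ⟨y, h1, h2, h3, h4, h5, h6, h7, h8⟩
      · simp at h
      · simp only at *; omega)
    (fun hp => by
      rcases hmem _ hp with h | ⟨y, h1, h2, h3, h4, h5, h6, h7, h8⟩
      · simp only at h; omega
      · simp only at *; omega)
    (by simp only [ne_eq, Prod.mk.injEq]; omega) (by simp only [ne_eq, Prod.mk.injEq]; omega)
    (by simp only [ne_eq, Prod.mk.injEq]; omega) (by simp only [ne_eq, Prod.mk.injEq]; omega)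
    (by simp only [ne_eq, Prod.mk.injEq]; omega)
    (Or.inl ⟨rfl, Or.inl (by ring)⟩) (Or.inl ⟨rfl, Or.inl (by ring)⟩)
    (fun p hp => by
      show 1 ≤ (p.1 + 2) - p.2
      rcases hp with hp | rfl | rfl | rfl | rfl
      · rcases hmem _ hp with h | ⟨y, h1, h2, h3, h4, h5, h6, h7, h8⟩
        · omega
        · omega
      · simp
      · simp
      · simp
      · simp only; omega)
  rw [← e] at key
  exact key

/-- **the visits of the boundary, half-plane** -/
theorem half_main (x : ℝ≥0∞) (hx : x ≤ 1) (j : ℤ) :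
    x ^ 4 * ∑' l : Traj HPl (1, 0) (1 + j, j), x ^ (l.1.length - 1) *
      (1 + x ^ 4) ^ (((Vis l.1).ncard - 4) / 2) ≤
      2 * ∑' l : Traj HPl (1, 0) (1 + j, j), x ^ (l.1.length - 1) := by
  by_cases hj : j = 0
  · subst hj
    have h1 : ∀ l : Traj HPl (1, 0) (1 + 0, 0), ((Vis l.1).ncard - 4) / 2 = 0 := by
      rintro ⟨l, a1, a2, a3, a4, a5⟩
      have hl : l = [(1, 0)] := by
        match l, a1, a2, a3 with
        | [b], a1, _, _ =>
          simp only [List.head?_cons, Option.some.injEq] at a1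
          rw [a1]
        | b :: b' :: t, a1, a2, a3 =>
          exfalso
          simp only [List.head?_cons, Option.some.injEq] at a1
          rw [List.getLast?_eq_getLast_of_ne_nil (by simp), Option.some.injEq,
            List.getLast_cons (by simp)] at a2
          rw [List.nodup_cons] at a3
          apply a3.1
          have h5 := List.getLast_mem (l := b' :: t) (by simp)
          rw [a2] at h5
          rw [a1]
          simpa using h5
      have h2 : (Vis l).ncard ≤ 1 := by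
        rw [hl]
        refine (Set.ncard_le_ncard (t := {((1, 0) : ℤ × ℤ)}) ?_ (Set.finite_singleton _)).trans
          (le_of_eq (Set.ncard_singleton _))
        rintro p ⟨hp, -⟩
        simpa using hp
      simp only
      omega
    simp only [h1, pow_zero, mul_one]
    refine mul_le_mul' ?_ le_rfl
    calc x ^ 4 ≤ 1 := pow_le_one₀ (zero_le) hx
      _ ≤ 2 := by norm_num
  · have hX : ({-1, 0, j - 1, j} : Set ℤ).Finite := Set.toFinite _
    have hk : ({-1, 0, j - 1, j} : Set ℤ).ncard ≤ 4 := by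
      refine (Set.ncard_insert_le _ _).trans ?_
      have h1 := Set.ncard_insert_le (0 : ℤ) {j - 1, j}
      have h2 := Set.ncard_insert_le (j - 1 : ℤ) {j}
      have h3 := Set.ncard_singleton j
      omega
    have h2 := two_class (fun l : Traj HPl (1, 0) (1 + j, j) => (Vis l.1).ncard)
      (fun l => {c ∈ LS 0 {-1, 0, j - 1, j} | Single c l.1}.ncard)
      (fun l => {c ∈ LS 1 {-1, 0, j - 1, j} | Single c l.1}.ncard)
      (fun l => x ^ (l.1.length - 1)) (1 + x ^ 4) (by simp) (fun l => by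
        refine low_count (fun p hp => hp) l.2 (X := {-1, 0, j - 1, j}) ?_ ?_ hX hk
        · intro y hy
          simp only [Set.mem_insert_iff, Set.mem_singleton_iff, not_or] at hy
          simp only [ne_eq, Prod.mk.injEq]
          omega
        · intro y hy
          simp only [Set.mem_insert_iff, Set.mem_singleton_iff, not_or] at hy
          simp only [ne_eq, Prod.mk.injEq]
          omega)
    refine (mul_le_mul' le_rfl h2).trans ?_
    rw [mul_add, two_mul]
    exact add_le_add (half_class x hx hj 0) (half_class x hx hj 1)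

end Pool.Agent.Q291.HB
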