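import Pool.Agent.Q291.HB.Bump

/-!
The inequality: if the weight of a trajectory is multiplied by `1 + x ^ 4` for each hexagon of a family of
disjoint boundary hexagons which it visits in a single run, the total weight is at most the total
weight of the trajectories in the domain enlarged by these hexagons.
-/

set_option autoImplicit false

namespace Pool.Agent.Q291.HB

open scoped ENNReal

theorem chain_map_run {c : ℤ × ℤ} (hc : Even (c.1 + c.2)) (s : Fin 6) (d : Bool) (m : Fin 6) :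
    ((run s d m).map (cor c)).IsChain Nbr := by
  rw [List.isChain_map]
  exact (run_chain s d m).imp fun i j h => nbr_cor' hc h

theorem new_traj {c : ℤ × ℤ} (hc : Even (c.1 + c.2)) {t : Dat} (ht : t.Ok c) {D : Set (ℤ × ℤ)}
    {a b : ℤ × ℤ} (h : t.old c ∈ Traj D a b) : t.new c ∈ Traj (D ∪ Hex c) a b := by
  obtain ⟨h1, h2, h3, h4, h5⟩ := h
  unfold Dat.old at h1 h2 h3 h4 h5
  unfold Dat.new
  have hlast : (run t.s t.d (t.m + 1)).getLast? = (run t.s (!t.d) (5 - t.m)).getLast? := run_last _ _ _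
  have hhead : (run t.s t.d (t.m + 1)).head? = (run t.s (!t.d) (5 - t.m)).head? := by
    rw [run_head, run_head]
  have hm5 : ((5 - t.m.1 : ℕ)) = ((⟨5 - t.m.1, by omega⟩ : Fin 6) : ℕ) := rfl
  refine ⟨?_, ?_, ?_, ?_, ?_⟩
  · rw [List.head?_append, List.head?_append] at h1 ⊢
    rw [List.head?_map] at h1 ⊢
    rw [← hhead]; exact h1
  · rw [List.getLast?_append, List.getLast?_append] at h2 ⊢
    rw [List.getLast?_map] at h2 ⊢
    rw [← hlast]; exact h2
  · rw [List.nodup_append', List.nodup_append'] at h3 ⊢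
    obtain ⟨n1, ⟨n2, n3, n4⟩, n5⟩ := h3
    refine ⟨n1, ⟨?_, n3, ?_⟩, ?_⟩
    · rw [hm5]
      exact (run_nodup _ _ _).map (cor_inj c)
    · intro p hp hp'
      exact ht.2 p hp' (mem_map_cor hp)
    · intro p hp hp'
      rcases List.mem_append.1 hp' with hp' | hp'
      · exact ht.1 p hp (mem_map_cor hp')
      · exact n5 hp (List.mem_append.2 (Or.inr hp'))
  · rw [List.isChain_append, List.isChain_append] at h4 ⊢
    obtain ⟨n1, ⟨n2, n3, n4⟩, n5⟩ := h4
    refine ⟨n1, ⟨?_, n3, ?_⟩, ?_⟩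
    · rw [hm5]; exact chain_map_run hc _ _ _
    · rw [List.getLast?_map] at n4 ⊢
      rw [← hlast]; exact n4
    · rw [List.head?_append, List.head?_map] at n5 ⊢
      rw [← hhead]; exact n5
  · intro p hp
    rcases List.mem_append.1 hp with hp | hp
    · exact Or.inl (h5 p (List.mem_append.2 (Or.inl hp)))
    · rcases List.mem_append.1 hp with hp | hp
      · exact Or.inr (mem_map_cor hp)
      · exact Or.inl (h5 p (List.mem_append.2 (Or.inr (List.mem_append.2 (Or.inr hp)))))

theorem new_not_mem {c : ℤ × ℤ} {t : Dat} {D : Set (ℤ × ℤ)} (hD : ¬ Hex c ⊆ D)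
    (h : ∀ p ∈ t.old c, p ∈ D) : ∃ p ∈ t.new c, p ∉ D := by
  rw [Set.not_subset] at hD
  obtain ⟨p, ⟨i, rfl⟩, hp⟩ := hD
  refine ⟨cor c i, ?_, hp⟩
  rcases run_cover t.s t.d t.m i with hi | hi
  · exact absurd (h _ (List.mem_append.2 (Or.inr (List.mem_append.2
      (Or.inl (List.mem_map.2 ⟨i, hi, rfl⟩)))))) hp
  · exact List.mem_append.2 (Or.inr (List.mem_append.2 (Or.inl (List.mem_map.2 ⟨i, hi, rfl⟩))))

theorem split_two {α : Type*} {k₁ B k₂ l₁ A l₂ : List α} (hA : A ≠ []) (hB : B ≠ [])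
    (hd : ∀ p ∈ A, p ∉ B) (h : k₁ ++ (B ++ k₂) = l₁ ++ (A ++ l₂)) :
    (∃ t, l₁ = k₁ ++ (B ++ t) ∧ k₂ = t ++ (A ++ l₂)) ∨
      (∃ t, k₁ = l₁ ++ (A ++ t) ∧ l₂ = t ++ (B ++ k₂)) := by
  have key : ∀ {B k₂ t A l₂ : List α}, A ≠ [] → (∀ p ∈ A, p ∉ B) →
      B ++ k₂ = t ++ (A ++ l₂) → ∃ t', t = B ++ t' ∧ k₂ = t' ++ (A ++ l₂) := by
    intro B k₂ t A l₂ hA hd h
    rcases List.append_eq_append_iff.1 h with ⟨s, h1, h2⟩ | ⟨s, h1, h2⟩
    · exact ⟨s, h1, h2⟩
    · cases s with
      | nil =>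
        simp only [List.append_nil, List.nil_append] at h1 h2
        exact ⟨[], by simp [h1], by simp [h2]⟩
      | cons x s =>
        cases A with
        | nil => exact absurd rfl hA
        | cons y A =>
          simp only [List.cons_append, List.cons.injEq] at h2
          obtain ⟨rfl, -⟩ := h2
          exact absurd (by rw [h1]; simp) (hd y (by simp))
  rcases List.append_eq_append_iff.1 h with ⟨s, h1, h2⟩ | ⟨s, h1, h2⟩
  · left
    obtain ⟨t', e1, e2⟩ := key hA hd h2
    exact ⟨t', by rw [h1, e1], e2⟩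
  · right
    obtain ⟨t', e1, e2⟩ := key hB (fun p hp hp' => hd p hp' hp) h2
    exact ⟨t', by rw [h1, e1], e2⟩

theorem single_new {c c' : ℤ × ℤ} (hd : Disjoint (Hex c) (Hex c')) {t : Dat}
    (h : Single c' (t.old c)) : Single c' (t.new c) := by
  obtain ⟨k₁, B, k₂, he, h2, h5, hB, hk1, hk2⟩ := h
  unfold Dat.old at he
  unfold Dat.new
  have hBne : B ≠ [] := by
    intro h0; rw [h0] at h2; simp at h2
  have hA : ∀ (s : Fin 6) (d : Bool) (m : ℕ), ∀ p ∈ (run s d m).map (cor c), p ∉ Hex c' := by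
    intro s d m p hp hp'
    exact (Set.disjoint_left.1 hd) (mem_map_cor hp) hp'
  rcases split_two (by simpa using run_ne _ _ _) hBne
    (fun p hp hp' => hA _ _ _ p hp (hB p hp')) he.symm with ⟨u, e1, e2⟩ | ⟨u, e1, e2⟩
  · refine ⟨k₁, B, u ++ ((run t.s (!t.d) (5 - t.m)).map (cor c) ++ t.l₂), ?_, h2, h5, hB, hk1, ?_⟩
    · rw [e1]; simp only [List.append_assoc]
    · intro p hp
      rcases List.mem_append.1 hp with hp | hp
      · exact hk2 p (by rw [e2]; simp [hp])
      · rcases List.mem_append.1 hp with hp | hp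
        · exact hA _ _ _ p hp
        · exact hk2 p (by rw [e2]; simp [hp])
  · refine ⟨t.l₁ ++ ((run t.s (!t.d) (5 - t.m)).map (cor c) ++ u), B, k₂, ?_, h2, h5, hB, ?_, hk2⟩
    · rw [e2]; simp only [List.append_assoc]
    · intro p hp
      rcases List.mem_append.1 hp with hp | hp
      · exact hk1 p (by rw [e1]; simp [hp])
      · rcases List.mem_append.1 hp with hp | hp
        · exact hA _ _ _ p hp
        · exact hk1 p (by rw [e1]; simp [hp])

open Classical in
/-- the number of the hexagons of the family visited in a single run -/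
noncomputable def cnt (S : Finset (ℤ × ℤ)) (l : List (ℤ × ℤ)) : ℕ := (S.filter fun c => Single c l).card

open Classical in
/-- the replacement -/
noncomputable def bmp (c : ℤ × ℤ) (l : List (ℤ × ℤ)) : List (ℤ × ℤ) :=
  if h : ∃ t : Dat, t.Ok c ∧ t.old c = l then h.choose.new c else l

open Classical in
theorem cnt_insert {S : Finset (ℤ × ℤ)} {c : ℤ × ℤ} (hc : c ∉ S) (l : List (ℤ × ℤ)) :
    cnt (insert c S) l = cnt S l + if Single c l then 1 else 0 := by
  unfold cnt
  rw [Finset.filter_insert]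
  split_ifs with h
  · rw [Finset.card_insert_of_notMem]
    simp [hc]
  · rfl

theorem main_fin (x : ℝ≥0∞) (hx : x ≤ 1) (a b : ℤ × ℤ) (S : Finset (ℤ × ℤ)) :
    ∀ D : Set (ℤ × ℤ), (∀ c ∈ S, Even (c.1 + c.2)) → (∀ c ∈ S, ¬ Hex c ⊆ D) →
      (∀ c ∈ S, ∀ c' ∈ S, c ≠ c' → Disjoint (Hex c) (Hex c')) →
      ∑' l : Traj D a b, x ^ (l.1.length - 1) * (1 + x ^ 4) ^ cnt S l.1 ≤
        ∑' l : Traj (D ∪ ⋃ c ∈ S, Hex c) a b, x ^ (l.1.length - 1) := by
  classical
  induction S using Finset.induction_on with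
  | empty =>
    intro D _ _ _
    have h0 : D ∪ ⋃ c ∈ (∅ : Finset (ℤ × ℤ)), Hex c = D := by simp
    rw [h0]
    simp [cnt]
  | insert c S hcS ih =>
    intro D h1 h2 h3
    have hce := h1 c (by simp)
    have hcD := h2 c (by simp)
    have hdis : ∀ c' ∈ S, Disjoint (Hex c) (Hex c') := fun c' hc' =>
      h3 c (by simp) c' (by simp [hc']) (fun h => hcS (h ▸ hc'))
    have ih' := ih (D ∪ Hex c) (fun c' h => h1 c' (by simp [h])) (by
      intro c' hc' hsub
      refine h2 c' (by simp [hc']) fun p hp => ?_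
      rcases hsub hp with h | h
      · exact h
      · exact absurd hp ((Set.disjoint_left.1 (hdis c' hc')) h))
      (fun c' h c'' h' hne => h3 c' (by simp [h]) c'' (by simp [h']) hne)
    have hset : D ∪ ⋃ c' ∈ insert c S, Hex c' = (D ∪ Hex c) ∪ ⋃ c' ∈ S, Hex c' := by
      rw [Finset.set_biUnion_insert, Set.union_assoc]
    rw [hset]
    refine le_trans ?_ ih'
    set g : List (ℤ × ℤ) → ℝ≥0∞ := fun l => x ^ (l.length - 1) * (1 + x ^ 4) ^ cnt S l with hg
    set B : Set (List (ℤ × ℤ)) := {l | l ∈ Traj D a b ∧ Single c l} with hBdef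
    have hdat : ∀ l ∈ B, ∃ t : Dat, t.Ok c ∧ t.old c = l := fun l hl =>
      exists_dat hce hl.1.2.2.1 hl.1.2.2.2.1 hl.2
    have hbmp : ∀ l ∈ B, ∃ t : Dat, t.Ok c ∧ t.old c = l ∧ bmp c l = t.new c := by
      intro l hl
      have h := hdat l hl
      refine ⟨h.choose, h.choose_spec.1, h.choose_spec.2, ?_⟩
      unfold bmp
      rw [dif_pos h]
    have hinj : Set.InjOn (bmp c) B := by
      intro l hl l' hl' he
      obtain ⟨t, ht1, ht2, ht3⟩ := hbmp l hl
      obtain ⟨t', ht1', ht2', ht3'⟩ := hbmp l' hl'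
      rw [← ht2, ← ht2']
      exact new_inj ht1 ht1' (by rw [← ht3, ← ht3', he])
    have hmem : ∀ l ∈ B, bmp c l ∈ Traj (D ∪ Hex c) a b := by
      intro l hl
      obtain ⟨t, ht1, ht2, ht3⟩ := hbmp l hl
      rw [ht3]
      exact new_traj hce ht1 (by rw [ht2]; exact hl.1)
    have hout : ∀ l ∈ B, bmp c l ∉ Traj D a b := by
      intro l hl hcon
      obtain ⟨t, ht1, ht2, ht3⟩ := hbmp l hl
      obtain ⟨p, hp, hpD⟩ := new_not_mem hcD (t := t) (by rw [ht2]; exact hl.1.2.2.2.2)
      rw [ht3] at hcon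
      exact hpD (hcon.2.2.2.2 p hp)
    have hgle : ∀ l ∈ B, x ^ 4 * g l ≤ g (bmp c l) := by
      intro l hl
      obtain ⟨t, ht1, ht2, ht3⟩ := hbmp l hl
      have hlen : (bmp c l).length ≤ l.length + 4 := by
        rw [ht3, ← ht2]; exact new_length c t
      have hlpos : 1 ≤ l.length := by
        have := hl.1.1
        cases l with
        | nil => simp at this
        | cons _ _ => simp
      have hcnt : cnt S l ≤ cnt S (bmp c l) := by
        unfold cnt
        apply Finset.card_le_card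
        intro c' hc'
        rw [Finset.mem_filter] at hc' ⊢
        refine ⟨hc'.1, ?_⟩
        rw [ht3]
        exact single_new (hdis c' hc'.1) (by rw [ht2]; exact hc'.2)
      simp only [hg]
      calc x ^ 4 * (x ^ (l.length - 1) * (1 + x ^ 4) ^ cnt S l)
          = x ^ (l.length + 4 - 1) * (1 + x ^ 4) ^ cnt S l := by
            rw [← mul_assoc, ← pow_add]
            congr 2
            omega
        _ ≤ x ^ ((bmp c l).length - 1) * (1 + x ^ 4) ^ cnt S (bmp c l) := by
            refine mul_le_mul' ?_ ?_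
            · exact pow_le_pow_right_of_le_one' hx (by omega)
            · exact pow_le_pow_right₀ (by simp) hcnt
    have e1 : ∑' l : Traj D a b, x ^ (l.1.length - 1) * (1 + x ^ 4) ^ cnt (insert c S) l.1 =
        ∑' l : Traj D a b, g l.1 + ∑' l : B, x ^ 4 * g l.1 := by
      rw [tsum_subtype (Traj D a b) fun l => x ^ (l.length - 1) * (1 + x ^ 4) ^ cnt (insert c S) l,
        tsum_subtype (Traj D a b) g, tsum_subtype B fun l => x ^ 4 * g l, ← ENNReal.tsum_add]
      refine tsum_congr fun l => ?_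
      by_cases hl : l ∈ Traj D a b
      · rw [Set.indicator_of_mem hl, Set.indicator_of_mem hl, cnt_insert hcS]
        by_cases hs : Single c l
        · rw [Set.indicator_of_mem (show l ∈ B from ⟨hl, hs⟩), if_pos hs]
          simp only [hg]
          rw [pow_succ]
          ring
        · rw [Set.indicator_of_notMem (fun h : l ∈ B => hs h.2), if_neg hs]
          simp [hg]
      · rw [Set.indicator_of_notMem hl, Set.indicator_of_notMem hl,
          Set.indicator_of_notMem (fun h : l ∈ B => hl h.1), add_zero]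
    rw [e1]
    have e2 : ∑' l : B, x ^ 4 * g l.1 ≤ ∑' l : (bmp c '' B : Set _), g l.1 := by
      rw [tsum_image g hinj]
      exact ENNReal.tsum_le_tsum fun l => hgle l.1 l.2
    have hdisj : Disjoint (Traj D a b) (bmp c '' B) := by
      rw [Set.disjoint_left]
      rintro l hl ⟨l', hl', rfl⟩
      exact hout l' hl' hl
    calc ∑' l : Traj D a b, g l.1 + ∑' l : B, x ^ 4 * g l.1
        ≤ ∑' l : Traj D a b, g l.1 + ∑' l : (bmp c '' B : Set _), g l.1 := by gcongr
      _ = ∑' l : (Traj D a b ∪ bmp c '' B : Set _), g l.1 :=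
          (Summable.tsum_union_disjoint hdisj ENNReal.summable ENNReal.summable).symm
      _ ≤ ∑' l : Traj (D ∪ Hex c) a b, g l.1 := by
          refine ENNReal.tsum_mono_subtype g ?_
          rintro l (hl | ⟨l', hl', rfl⟩)
          · exact ⟨hl.1, hl.2.1, hl.2.2.1, hl.2.2.2.1, fun p hp => Or.inl (hl.2.2.2.2 p hp)⟩
          · exact hmem l' hl'

end Pool.Agent.Q291.HB
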