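import Pool.Agent.Q291.HB.Num
import Pool.Agent.Q294.Bd1

/-!
The critical mass of the arcs of the half-plane is at most six.
-/

set_option autoImplicit false

namespace Pool.Agent.W832.HR

open scoped ENNReal

theorem Q291_c3_ge : (38 : ℝ) / 100 ≤ c3 := by
  unfold c3
  have e : Real.cos (3 * (Real.pi / 8)) = Real.sin (Real.pi / 8) := by
    rw [← Real.cos_pi_div_two_sub]
    congr 1
    ring
  rw [e, Real.sin_pi_div_eight]
  have h1 := Pool.Agent.Q291.HB.sqrt_two_le
  have h2 : (76 : ℝ) / 100 ≤ Real.sqrt (2 - Real.sqrt 2) := by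
    apply Real.le_sqrt_of_sq_le
    norm_num
    linarith
  linarith

theorem Q291_arc_zero (l : List (ℤ × ℤ)) (h : l ∈ Traj HP (1, 0) (1 + (0 : ℤ), 0)) :
    l = [(1, 0)] := by
  obtain ⟨a1, a2, a3, a4, a5⟩ := h
  match l, a1, a2, a3 with
  | [b], a1, _, _ =>
    simp only [List.head?_cons, Option.some.injEq] at a1
    rw [a1]
  | b :: b' :: t, a1, a2, a3 =>
    exfalso
    simp only [List.head?_cons, Option.some.injEq] at a1
    rw [List.getLast?_eq_getLast_of_ne_nil (by simp), Option.some.injEq,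
      List.getLast_cons (by simp)] at a2
    rw [List.nodup_cons] at a3
    apply a3.1
    have h5 := List.getLast_mem (l := b' :: t) (by simp)
    rw [a2] at h5
    rw [a1]
    simpa using h5

theorem Q291_a_zero : a 0 ≤ 1 := by
  unfold a Z
  have hsub : Subsingleton (Traj HP (1, 0) (1 + (0 : ℤ), 0)) :=
    ⟨fun l l' => Subtype.ext ((Q291_arc_zero l.1 l.2).trans (Q291_arc_zero l'.1 l'.2).symm)⟩
  by_cases he : Nonempty (Traj HP (1, 0) (1 + (0 : ℤ), 0))
  · obtain ⟨l⟩ := he
    rw [tsum_eq_single l (fun b hb => absurd (Subsingleton.elim b l) hb),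
      Q291_arc_zero l.1 l.2]
    simp
  · have := not_nonempty_iff.1 he
    rw [tsum_empty]
    exact zero_le

theorem Q291_mass : ∑' j : ℤ, a j ≤ 6 := by
  have h1 : ∑' j : ℤ, (if j ≠ 0 then xc * a j else 0) ≤ ENNReal.ofReal (1 / c3) := by
    refine le_trans (le_of_eq ?_) (HA_le (fun w => (w.headD (0, 0)).2 ≠ 0 ∧ True))
    rw [HA_sum (fun _ => True) (fun j => j ≠ 0)]
    refine tsum_congr fun j => ?_
    by_cases hj : j = 0
    · rw [if_neg (by simpa using hj), if_neg (by simpa using hj)]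
    · rw [if_pos hj, if_pos hj, arc_transfer hj]
      exact congrArg (fun t => xc * t) (sub_true (Traj HP (1, 0) (1 + j, j))
        (fun l : List (ℤ × ℤ) => xc ^ (l.length - 1))).symm
  have hx0 : xc ≠ 0 := by
    rw [xc_eq]
    simpa using H978R2.Hex.mu0_pos
  have hxt : xc ≠ ⊤ := ENNReal.ofReal_ne_top
  have hxi : xc⁻¹ ≤ ENNReal.ofReal (37 / 20) := by
    rw [xc_eq, ← ENNReal.ofReal_inv_of_pos (by simpa using H978R2.Hex.mu0_pos), inv_inv]
    exact ENNReal.ofReal_le_ofReal Q294.Bd.mu0_lt.le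
  have h2 : ∑' j : ℤ, (if j ≠ 0 then a j else 0) ≤ 5 := by
    have e : ∑' j : ℤ, (if j ≠ 0 then a j else 0) = xc⁻¹ * ∑' j : ℤ, (if j ≠ 0 then
        xc * a j else 0) := by
      rw [← ENNReal.tsum_mul_left]
      refine tsum_congr fun j => ?_
      by_cases hj : j = 0
      · rw [if_neg (by simpa using hj), if_neg (by simpa using hj), mul_zero]
      · rw [if_pos hj, if_pos hj, ← mul_assoc, ENNReal.inv_mul_cancel hx0 hxt, one_mul]
    rw [e]
    refine (mul_le_mul' hxi h1).trans ?_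
    rw [← ENNReal.ofReal_mul (by norm_num), show (5 : ℝ≥0∞) = ENNReal.ofReal 5 by norm_num]
    apply ENNReal.ofReal_le_ofReal
    have h3 : 1 / c3 ≤ 1 / (38 / 100) := one_div_le_one_div_of_le (by norm_num) Q291_c3_ge
    calc (37 : ℝ) / 20 * (1 / c3) ≤ 37 / 20 * (1 / (38 / 100)) := by gcongr
      _ ≤ 5 := by norm_num
  have h3 : ∀ j : ℤ, a j ≤ (if j = 0 then 1 else 0) + (if j ≠ 0 then a j else 0) := by
    intro j
    by_cases hj : j = 0
    · subst hj
      rw [if_pos rfl, if_neg (by simp), add_zero]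
      exact Q291_a_zero
    · rw [if_neg hj, if_pos hj, zero_add]
  refine (ENNReal.tsum_le_tsum h3).trans ?_
  rw [ENNReal.tsum_add, tsum_ite_eq]
  refine (add_le_add le_rfl h2).trans ?_
  norm_num

end Pool.Agent.W832.HR

namespace Pool.Agent.Q291.HB

open scoped ENNReal

theorem arcs_mass : ∑' j : ℤ, ∑' l : Traj HPl (1, 0) (1 + j, j), xc ^ (l.1.length - 1) ≤ 6 :=
  Pool.Agent.W832.HR.Q291_mass

end Pool.Agent.Q291.HB
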