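import Pool.Agent.Q291.HB.Str
import Pool.Agent.Q291.HB.Dom

/-!
Numbers: the exponential tail at the critical fugacity.
-/

set_option autoImplicit false

namespace Pool.Agent.Q291.HB

open scoped ENNReal

theorem xc4 : xc ^ 4 = ENNReal.ofReal (1 / (2 + Real.sqrt 2) ^ 2) := by
  unfold xc
  rw [← ENNReal.ofReal_pow (by positivity)]
  congr 1
  rw [div_pow, one_pow]
  congr 1
  rw [show (4 : ℕ) = 2 * 2 by norm_num, pow_mul, Real.sq_sqrt (by positivity)]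

theorem sqrt_two_le : Real.sqrt 2 ≤ 14143 / 10000 := by
  rw [Real.sqrt_le_left (by norm_num)]
  norm_num

theorem x4_ge : (1 : ℝ) / (117 / 10) ≤ 1 / (2 + Real.sqrt 2) ^ 2 := by
  have h1 := sqrt_two_le
  have h0 := Real.sqrt_nonneg 2
  apply one_div_le_one_div_of_le (by positivity)
  nlinarith

theorem x4_ge' : (1 : ℝ) / (1166 / 100) ≤ 1 / (2 + Real.sqrt 2) ^ 2 := by
  have h1 := sqrt_two_le
  have h0 := Real.sqrt_nonneg 2
  apply one_div_le_one_div_of_le (by positivity)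
  nlinarith

theorem num (m : ℕ) :
    2 ≤ ENNReal.ofReal (29 * (24 / 25) ^ m) * (xc ^ 4 * (1 + xc ^ 4) ^ ((m - 4) / 2)) := by
  obtain ⟨k, hk⟩ : ∃ k, k = (m - 4) / 2 := ⟨_, rfl⟩
  rw [← hk, xc4]
  obtain ⟨y, hy⟩ : ∃ y, y = 1 / (2 + Real.sqrt 2) ^ 2 := ⟨_, rfl⟩
  have hy1 := x4_ge'
  rw [← hy] at hy1 ⊢
  have hy0 : 0 < y := lt_of_lt_of_le (by norm_num) hy1
  rw [show (1 : ℝ≥0∞) + ENNReal.ofReal y = ENNReal.ofReal (1 + y) by
    rw [ENNReal.ofReal_add zero_le_one hy0.le, ENNReal.ofReal_one],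
    ← ENNReal.ofReal_pow (by positivity), ← ENNReal.ofReal_mul hy0.le,
    ← ENNReal.ofReal_mul (by positivity), show (2 : ℝ≥0∞) = ENNReal.ofReal 2 by norm_num]
  apply ENNReal.ofReal_le_ofReal
  have h1 : ((25 : ℝ) / 24) ^ 2 ≤ 1 + y := by
    have : ((25 : ℝ) / 24) ^ 2 ≤ 1 + 1 / (1166 / 100) := by norm_num
    linarith
  have h2 : (((25 : ℝ) / 24) ^ 2) ^ k ≤ (1 + y) ^ k := pow_le_pow_left₀ (by positivity) h1 k
  have h3 : ((24 : ℝ) / 25) ^ (2 * k + 5) ≤ (24 / 25) ^ m :=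
    pow_le_pow_of_le_one (by norm_num) (by norm_num) (by omega)
  have h4 : ((24 : ℝ) / 25) ^ (2 * k + 5) * (((25 : ℝ) / 24) ^ 2) ^ k = (24 / 25) ^ 5 := by
    rw [pow_add, pow_mul, mul_right_comm, ← mul_pow]
    norm_num
  calc (2 : ℝ) ≤ 29 * (1 / (1166 / 100)) * (24 / 25) ^ 5 := by norm_num
    _ ≤ 29 * y * (24 / 25) ^ 5 := by gcongr
    _ = 29 * ((24 / 25) ^ (2 * k + 5)) * (y * (((25 : ℝ) / 24) ^ 2) ^ k) := by
      rw [← h4]
      ring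
    _ ≤ 29 * (24 / 25) ^ m * (y * (1 + y) ^ k) := by gcongr

/-- the tail from the exponential moment -/
theorem tail_num {S : Set (List (ℤ × ℤ))} {f : List (ℤ × ℤ) → ℕ} {A : ℝ≥0∞}
    (h : xc ^ 4 * ∑' l : S, xc ^ (l.1.length - 1) * (1 + xc ^ 4) ^ ((f l.1 - 4) / 2) ≤ 2 * A)
    (m : ℕ) :
    ∑' l : {l : List (ℤ × ℤ) | l ∈ S ∧ m ≤ f l}, xc ^ (l.1.length - 1) ≤
      ENNReal.ofReal (29 * (24 / 25) ^ m) * A := by
  obtain ⟨s, hs⟩ : ∃ s, s = ∑' l : {l : List (ℤ × ℤ) | l ∈ S ∧ m ≤ f l}, xc ^ (l.1.length - 1) :=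
    ⟨_, rfl⟩
  rw [← hs]
  have h1 : (1 + xc ^ 4) ^ ((m - 4) / 2) * s ≤
      ∑' l : S, xc ^ (l.1.length - 1) * (1 + xc ^ 4) ^ ((f l.1 - 4) / 2) := by
    rw [hs, ← ENNReal.tsum_mul_left]
    calc ∑' l : {l : List (ℤ × ℤ) | l ∈ S ∧ m ≤ f l},
          (1 + xc ^ 4) ^ ((m - 4) / 2) * xc ^ (l.1.length - 1)
        ≤ ∑' l : {l : List (ℤ × ℤ) | l ∈ S ∧ m ≤ f l},
          xc ^ (l.1.length - 1) * (1 + xc ^ 4) ^ ((f l.1 - 4) / 2) := by
          refine ENNReal.tsum_le_tsum fun l => ?_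
          rw [mul_comm]
          refine mul_le_mul' le_rfl (pow_le_pow_right₀ (by simp) ?_)
          have := l.2.2
          omega
      _ ≤ _ := ENNReal.tsum_mono_subtype
          (fun l : List (ℤ × ℤ) => xc ^ (l.length - 1) * (1 + xc ^ 4) ^ ((f l - 4) / 2))
          (fun l hl => hl.1)
  have h2 := (mul_le_mul' (le_refl (ENNReal.ofReal (29 * (24 / 25) ^ m)))
    ((mul_le_mul' (le_refl (xc ^ 4)) h1).trans h))
  have h3 := mul_le_mul' (num m) (le_refl s)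
  have h4 : 2 * s ≤ 2 * (ENNReal.ofReal (29 * (24 / 25) ^ m) * A) := by
    calc 2 * s ≤ ENNReal.ofReal (29 * (24 / 25) ^ m) * (xc ^ 4 * (1 + xc ^ 4) ^ ((m - 4) / 2)) * s :=
          h3
      _ = ENNReal.ofReal (29 * (24 / 25) ^ m) * (xc ^ 4 * ((1 + xc ^ 4) ^ ((m - 4) / 2) * s)) := by
          ring
      _ ≤ _ := h2
      _ = _ := by ring
  exact (ENNReal.mul_le_mul_iff_right (by norm_num) (by norm_num)).1 h4

end Pool.Agent.Q291.HB
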