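import Pool.Agent.Q291.HB.Half

/-!
The visits of the boundary of a strip by the crossing trajectories.
-/

set_option autoImplicit false

namespace Pool.Agent.Q291.HB

open scoped ENNReal

/-- the strip with `2 T` levels -/
def St (T : ℕ) : Set (ℤ × ℤ) := {p | 1 ≤ p.1 - p.2 ∧ p.1 - p.2 ≤ 2 * T}

/-- the visited vertices of the highest level -/
def VisT (T : ℕ) (l : List (ℤ × ℤ)) : Set (ℤ × ℤ) := {p | p ∈ l ∧ p.1 - p.2 = 2 * T}

/-- the classes of hexagons at the upper boundary -/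
def US (T : ℕ) (ε : ℤ) (X : Set ℤ) : Set (ℤ × ℤ) := {c | c.1 = 2 * T + c.2 ∧ c.2 % 2 = ε ∧ c.2 ∉ X}

theorem US_even {T : ℕ} {ε : ℤ} {X : Set ℤ} {c : ℤ × ℤ} (h : c ∈ US T ε X) :
    Even (c.1 + c.2) := by
  rw [h.1]
  exact ⟨T + c.2, by ring⟩

/-- both classes -/
def BS (T : ℕ) (ε : ℤ) (X Y : Set ℤ) : Set (ℤ × ℤ) := LS ε X ∪ US T ε Y

theorem BS_disj {T : ℕ} (hT : 2 ≤ T) {ε : ℤ} {X Y : Set ℤ} {c c' : ℤ × ℤ} (h : c ∈ BS T ε X Y)
    (h' : c' ∈ BS T ε X Y) (hne : c ≠ c') : Disjoint (Hex c) (Hex c') := by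
  rw [Set.disjoint_left]
  intro p hp hp'
  rw [mem_Hex] at hp hp'
  apply hne
  rcases h with ⟨a1, a2, -⟩ | ⟨a1, a2, -⟩ <;> rcases h' with ⟨b1, b2, -⟩ | ⟨b1, b2, -⟩ <;>
    apply Prod.ext <;> omega

theorem up_count {T : ℕ} {D : Set (ℤ × ℤ)} (hD : ∀ p ∈ D, p.1 - p.2 ≤ 2 * T) {a b : ℤ × ℤ}
    {l : List (ℤ × ℤ)} (hl : l ∈ Traj D a b) {X : Set ℤ}
    (ha : ∀ x ∉ X, (2 * (T : ℤ) + x, x) ≠ a ∧ (2 * (T : ℤ) + x + 1, x + 1) ≠ a)
    (hb : ∀ x ∉ X, (2 * (T : ℤ) + x, x) ≠ b ∧ (2 * (T : ℤ) + x + 1, x + 1) ≠ b) {k : ℕ}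
    (hX : X.Finite) (hk : X.ncard ≤ k) :
    (VisT T l).ncard ≤
      k + {c ∈ US T 0 X | Single c l}.ncard + {c ∈ US T 1 X | Single c l}.ncard := by
  have hf : ∀ ε, {c ∈ US T ε X | Single c l}.Finite := fun ε =>
    (single_finite l).subset fun c hc => hc.2
  let ψ : ℤ → ℤ × ℤ := fun x => (2 * (T : ℤ) + x, x)
  have hsub : VisT T l ⊆ (ψ '' X ∪ {c ∈ US T 0 X | Single c l}) ∪ {c ∈ US T 1 X | Single c l} := by
    rintro ⟨u, x⟩ ⟨hp, hx⟩
    simp only at hx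
    have hu : u = 2 * (T : ℤ) + x := by omega
    subst hu
    by_cases hxX : x ∈ X
    · exact Or.inl (Or.inl ⟨x, hxX, rfl⟩)
    · have hs := top_single hD hl x hp (ha x hxX).1 (hb x hxX).1 (ha x hxX).2 (hb x hxX).2
      have h2 : x % 2 = 0 ∨ x % 2 = 1 := by omega
      rcases h2 with h2 | h2
      · exact Or.inl (Or.inr ⟨⟨rfl, h2, hxX⟩, hs⟩)
      · exact Or.inr ⟨⟨rfl, h2, hxX⟩, hs⟩
  have h1 := Set.ncard_le_ncard hsub (((hX.image _).union (hf 0)).union (hf 1))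
  have h2 := Set.ncard_union_le (ψ '' X ∪ {c ∈ US T 0 X | Single c l})
    ({c ∈ US T 1 X | Single c l})
  have h3 := Set.ncard_union_le (ψ '' X) ({c ∈ US T 0 X | Single c l})
  have h4 := Set.ncard_image_le (f := ψ) hX
  omega

theorem BS_card {T : ℕ} (hT : 2 ≤ T) (ε : ℤ) (X Y : Set ℤ) (l : List (ℤ × ℤ)) :
    {c ∈ BS T ε X Y | Single c l}.ncard =
      {c ∈ LS ε X | Single c l}.ncard + {c ∈ US T ε Y | Single c l}.ncard := by
  have e : {c ∈ BS T ε X Y | Single c l} = {c ∈ LS ε X | Single c l} ∪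
      {c ∈ US T ε Y | Single c l} := by
    ext c
    simp only [BS, Set.mem_union, Set.mem_ofPred_eq]
    tauto
  rw [e]
  refine Set.ncard_union_eq ?_ ((single_finite l).subset fun c hc => hc.2)
    ((single_finite l).subset fun c hc => hc.2)
  rw [Set.disjoint_left]
  rintro c ⟨⟨h1, -⟩, -⟩ ⟨⟨h2, -⟩, -⟩
  omega

theorem strip_class (x : ℝ≥0∞) (hx : x ≤ 1) {T : ℕ} (hT : 2 ≤ T) (z : ℤ) (ε : ℤ) :
    x ^ 4 * ∑' l : Traj (St T) (1, 0) (2 * T + z, z), x ^ (l.1.length - 1) *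
      (1 + x ^ 4) ^ {c ∈ BS T ε {-1, 0} {z - 1, z} | Single c l.1}.ncard ≤
      ∑' l : Traj (St (T + 2)) (1, 0) (2 * ((T + 2 : ℕ) : ℤ) + z, z), x ^ (l.1.length - 1) := by
  have h := main_set x hx (St T) (1, 0) (2 * T + z, z) (BS T ε {-1, 0} {z - 1, z})
    (fun c hc => hc.elim LS_even US_even)
    (fun c hc hsub => by
      rcases hc with hc | hc
      · have : cor c 0 ∈ St T := hsub ⟨0, rfl⟩
        have h1 := hc.1
        simp only [cor, St, Matrix.cons_val_zero, Set.mem_ofPred_eq] at this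
        omega
      · have : cor c 1 ∈ St T := hsub ⟨1, rfl⟩
        have h1 := hc.1
        simp only [cor, St, Matrix.cons_val_one, Set.mem_ofPred_eq] at this
        simp at this
        omega)
    (fun c hc c' hc' hne => BS_disj hT hc hc' hne)
  refine (mul_le_mul' le_rfl h).trans ?_
  have e : ((2 * ((T + 2 : ℕ) : ℤ) + z, z) : ℤ × ℤ) = mv (2 * T + z + 2, z) := by
    unfold mv
    simp only [Prod.mk.injEq, and_true]
    push_cast
    ring
  have hmem : ∀ p ∈ St T ∪ ⋃ c ∈ {c ∈ BS T ε {-1, 0} {z - 1, z} | (Hex c ∩ St T).Nonempty}, Hex c,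
      (1 ≤ p.1 - p.2 ∧ p.1 - p.2 ≤ 2 * T) ∨
      (∃ y : ℤ, y ≠ -1 ∧ y ≠ 0 ∧ y ≤ p.1 ∧ p.1 ≤ y + 2 ∧ y ≤ p.2 ∧ p.2 ≤ y + 1) ∨
      (∃ y : ℤ, y ≠ z - 1 ∧ y ≠ z ∧ 2 * T + y ≤ p.1 ∧ p.1 ≤ 2 * T + y + 2 ∧ y ≤ p.2 ∧
        p.2 ≤ y + 1) := by
    intro p hp
    rcases hp with hp | hp
    · exact Or.inl hp
    · simp only [Set.mem_iUnion] at hp
      obtain ⟨c, ⟨⟨h1, h2, h3⟩ | ⟨h1, h2, h3⟩, -⟩, hpc⟩ := hp
      · rw [mem_Hex] at hpc
        right; left
        simp only [Set.mem_insert_iff, Set.mem_singleton_iff, not_or] at h3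
        exact ⟨c.1, h3.1, h3.2, hpc.1, hpc.2.1, by omega, by omega⟩
      · rw [mem_Hex] at hpc
        right; right
        simp only [Set.mem_insert_iff, Set.mem_singleton_iff, not_or] at h3
        exact ⟨c.2, h3.1, h3.2, by omega, by omega, by omega, by omega⟩
  have key := pro_le x
    (D := St T ∪ ⋃ c ∈ {c ∈ BS T ε {-1, 0} {z - 1, z} | (Hex c ∩ St T).Nonempty}, Hex c)
    (D' := St (T + 2)) (b := (2 * T + z, z)) (q1 := (2 * T + z + 1, z)) (q2 := (2 * T + z + 2, z))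
    (fun hp => by
      rcases hmem _ hp with h | ⟨y, h1, h2, h3, h4, h5, h6⟩ | ⟨y, h1, h2, h3, h4, h5, h6⟩ <;>
        simp only at * <;> omega)
    (fun hp => by
      rcases hmem _ hp with h | ⟨y, h1, h2, h3, h4, h5, h6⟩ | ⟨y, h1, h2, h3, h4, h5, h6⟩ <;>
        simp only at * <;> omega)
    (fun hp => by
      rcases hmem _ hp with h | ⟨y, h1, h2, h3, h4, h5, h6⟩ | ⟨y, h1, h2, h3, h4, h5, h6⟩ <;>
        simp only at * <;> omega)
    (fun hp => by
      rcases hmem _ hp with h | ⟨y, h1, h2, h3, h4, h5, h6⟩ | ⟨y, h1, h2, h3, h4, h5, h6⟩ <;>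
        simp only at * <;> omega)
    (by simp only [ne_eq, Prod.mk.injEq]; omega) (by simp only [ne_eq, Prod.mk.injEq]; omega)
    (by simp only [ne_eq, Prod.mk.injEq]; omega) (by simp only [ne_eq, Prod.mk.injEq]; omega)
    (by simp only [ne_eq, Prod.mk.injEq]; omega)
    (Or.inl ⟨rfl, Or.inr (by ring)⟩) (Or.inl ⟨rfl, Or.inr (by ring)⟩)
    (fun p hp => by
      show 1 ≤ (p.1 + 2) - p.2 ∧ (p.1 + 2) - p.2 ≤ 2 * ((T + 2 : ℕ) : ℤ)
      push_cast
      rcases hp with hp | rfl | rfl | rfl | rfl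
      · rcases hmem _ hp with h | ⟨y, h1, h2, h3, h4, h5, h6⟩ | ⟨y, h1, h2, h3, h4, h5, h6⟩ <;>
          omega
      · simp only; omega
      · simp only; omega
      · simp only; omega
      · simp only; omega)
  rw [← e] at key
  exact key

/-- the number of visited boundary vertices -/
noncomputable def V (T : ℕ) (l : List (ℤ × ℤ)) : ℕ := (Vis l).ncard + (VisT T l).ncard

theorem strip_end (x : ℝ≥0∞) (hx : x ≤ 1) {T : ℕ} (hT : 2 ≤ T) (z : ℤ) :
    x ^ 4 * ∑' l : Traj (St T) (1, 0) (2 * T + z, z), x ^ (l.1.length - 1) *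
      (1 + x ^ 4) ^ ((V T l.1 - 4) / 2) ≤
      2 * ∑' l : Traj (St (T + 2)) (1, 0) (2 * ((T + 2 : ℕ) : ℤ) + z, z),
        x ^ (l.1.length - 1) := by
  have hX : ({-1, 0} : Set ℤ).Finite := Set.toFinite _
  have hY : ({z - 1, z} : Set ℤ).Finite := Set.toFinite _
  have hkX : ({-1, 0} : Set ℤ).ncard ≤ 2 := by
    refine (Set.ncard_insert_le _ _).trans ?_
    rw [Set.ncard_singleton]
  have hkY : ({z - 1, z} : Set ℤ).ncard ≤ 2 := by
    refine (Set.ncard_insert_le _ _).trans ?_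
    rw [Set.ncard_singleton]
  have h2 := two_class (fun l : Traj (St T) (1, 0) (2 * T + z, z) => V T l.1)
    (fun l => {c ∈ BS T 0 {-1, 0} {z - 1, z} | Single c l.1}.ncard)
    (fun l => {c ∈ BS T 1 {-1, 0} {z - 1, z} | Single c l.1}.ncard)
    (fun l => x ^ (l.1.length - 1)) (1 + x ^ 4) (by simp) (fun l => by
      have a1 := low_count (fun p hp => hp.1) l.2 (X := {-1, 0}) (by
        intro y hy
        simp only [Set.mem_insert_iff, Set.mem_singleton_iff, not_or] at hy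
        simp only [ne_eq, Prod.mk.injEq]
        omega) (by
        intro y hy
        simp only [Set.mem_insert_iff, Set.mem_singleton_iff, not_or] at hy
        simp only [ne_eq, Prod.mk.injEq]
        omega) hX hkX
      have a2 := up_count (T := T) (fun p hp => hp.2) l.2 (X := {z - 1, z}) (by
        intro y hy
        simp only [Set.mem_insert_iff, Set.mem_singleton_iff, not_or] at hy
        simp only [ne_eq, Prod.mk.injEq]
        omega) (by
        intro y hy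
        simp only [Set.mem_insert_iff, Set.mem_singleton_iff, not_or] at hy
        simp only [ne_eq, Prod.mk.injEq]
        omega) hY hkY
      have b1 := BS_card hT 0 {-1, 0} {z - 1, z} l.1
      have b2 := BS_card hT 1 {-1, 0} {z - 1, z} l.1
      unfold V
      omega)
  refine (mul_le_mul' le_rfl h2).trans ?_
  rw [mul_add]
  exact (add_le_add (strip_class x hx hT z 0) (strip_class x hx hT z 1)).trans
    (le_of_eq (two_mul _).symm)

/-- the crossing trajectories -/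
def Cross (T : ℕ) : Set (List (ℤ × ℤ)) := {l | ∃ x : ℤ, l ∈ Traj (St T) (1, 0) (2 * T + x, x)}

theorem cross_le (T : ℕ) (F : List (ℤ × ℤ) → ℝ≥0∞) :
    ∑' l : Cross T, F l ≤ ∑' z : ℤ, ∑' l : Traj (St T) (1, 0) (2 * T + z, z), F l := by
  have e : Cross T = ⋃ z : ℤ, Traj (St T) (1, 0) (2 * T + z, z) := by
    ext l
    simp only [Cross, Set.mem_iUnion, Set.mem_ofPred_eq]
  rw [e]
  exact ENNReal.tsum_iUnion_le_tsum _ _

theorem le_cross (T : ℕ) (F : List (ℤ × ℤ) → ℝ≥0∞) :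
    ∑' z : ℤ, ∑' l : Traj (St T) (1, 0) (2 * T + z, z), F l ≤ ∑' l : Cross T, F l := by
  rw [← ENNReal.tsum_sigma' (f := fun p : (Σ z : ℤ, Traj (St T) (1, 0) (2 * T + z, z)) => F p.2.1)]
  let g : (Σ z : ℤ, Traj (St T) (1, 0) (2 * T + z, z)) → Cross T := fun p =>
    ⟨p.2.1, p.1, p.2.2⟩
  have hg : Function.Injective g := by
    rintro ⟨z, l, hl⟩ ⟨z', l', hl'⟩ h
    have h1 : l = l' := congrArg Subtype.val h
    subst h1
    have h2 := hl.2.1.symm.trans hl'.2.1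
    have h3 : z = z' := by
      simp only [Option.some.injEq, Prod.mk.injEq] at h2
      exact h2.2
    subst h3
    rfl
  exact ENNReal.tsum_comp_le_tsum_of_injective hg (fun l => F l.1)

/-- **the visits of the boundary of the strip** -/
theorem strip_main (x : ℝ≥0∞) (hx : x ≤ 1) {T : ℕ} (hT : 2 ≤ T) :
    x ^ 4 * ∑' l : Cross T, x ^ (l.1.length - 1) * (1 + x ^ 4) ^ ((V T l.1 - 4) / 2) ≤
      2 * ∑' l : Cross (T + 2), x ^ (l.1.length - 1) := by
  refine (mul_le_mul' le_rfl (cross_le T fun l => x ^ (l.length - 1) *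
    (1 + x ^ 4) ^ ((V T l - 4) / 2))).trans ?_
  rw [← ENNReal.tsum_mul_left]
  refine (ENNReal.tsum_le_tsum fun z => strip_end x hx hT z).trans ?_
  rw [ENNReal.tsum_mul_left]
  exact mul_le_mul' le_rfl (le_cross (T + 2) fun l => x ^ (l.length - 1))

end Pool.Agent.Q291.HB
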